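import Pool.Agent.FF79.NecA
import Pool.Agent.FF24.Basic

set_option autoImplicit false

/-!
# FF56/Auto: facet-to-facet tilings are coherent if no facet is ambiguous, or if the polytope is centrally symmetric

`IsFF P T`: facet-to-facet tiling by tiles `e • P + t` (no condition on the signs). `Csym P u`: the facet `u` is
centrally symmetric. `Tra P u`: the facet `u` is a translate of the opposite facet.
-/

open Set Metric
open scoped RealInnerProductSpace

namespace Pool.FF56

open Pool.FF24 Pool.FF79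

variable {E : Type*} [NormedAddCommGroup E] [InnerProductSpace ℝ E]

/-- `T` is a facet-to-facet tiling by the tiles `e • P + t`, `(e, t) ∈ T`, `e = ± 1`: the tiles cover the space, tiles
with different labels have disjoint interiors, and behind every facet of every tile there is another tile which has
this facet as a facet. -/
structure IsFF (P : HPoly E) (T : Set (ℝ × E)) : Prop where
  sign : ∀ τ ∈ T, τ.1 = 1 ∨ τ.1 = -1
  cover : ∀ x : E, ∃ τ ∈ T, x ∈ X τ '' P.body
  disj : ∀ τ ∈ T, ∀ σ ∈ T, τ ≠ σ →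
    Disjoint (interior (X τ '' P.body)) (interior (X σ '' P.body))
  facet : ∀ τ ∈ T, ∀ u ∈ P.N, ∃ σ ∈ T, σ ≠ τ ∧ ∃ v ∈ P.N, X σ '' P.fc v = X τ '' P.fc u

/-- the facet `u` is centrally symmetric -/
def Csym (P : HPoly E) (u : E) : Prop := ∃ c : E, ∀ z ∈ P.fc u, c - z ∈ P.fc u

/-- the facet `u` is a translate of the opposite facet -/
def Tra (P : HPoly E) (u : E) : Prop := -u ∈ P.N ∧ ∃ c : E, ∀ z : E, z ∈ P.fc u ↔ z + c ∈ P.fc (-u)

theorem _root_.Pool.FF79.IsTiling.isFF {P : HPoly E} {I : Set E} {T : Set (ℝ × E)}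
    (h : IsTiling P I T) : IsFF P T where
  sign := h.sign
  cover := h.cover
  disj := h.disj
  facet := fun τ hτ u hu => by
    obtain ⟨σ, h1, h2, -, h3⟩ := h.facet τ hτ u hu
    exact ⟨σ, h1, h2, h3⟩

/-- the two possibilities behind a facet -/
theorem IsFF.cases {P : HPoly E} {T : Set (ℝ × E)} (hT : IsFF P T) {τ : ℝ × E} (hτ : τ ∈ T) {u : E}
    (hu : u ∈ P.N) : ∃ σ ∈ T, σ ≠ τ ∧ (∃ v ∈ P.N, X σ '' P.fc v = X τ '' P.fc u) ∧
      ((σ.1 = -τ.1 ∧ Csym P u) ∨ (σ.1 = τ.1 ∧ Tra P u)) := by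
  obtain ⟨σ, hσ, hne, v, hv, hF⟩ := hT.facet τ hτ u hu
  refine ⟨σ, hσ, hne, ⟨v, hv, hF⟩, ?_⟩
  have hn := facet_normal P (hT.sign τ hτ) (hT.sign σ hσ) hu hv (hT.disj τ hτ σ hσ hne.symm) hF
  have hsq : τ.1 * τ.1 = 1 := by
    rcases hT.sign τ hτ with h | h <;> rw [h] <;> norm_num
  have hcases : σ.1 = -τ.1 ∨ σ.1 = τ.1 := by
    rcases hT.sign τ hτ with h | h <;> rcases hT.sign σ hσ with h' | h' <;> rw [h, h'] <;> norm_num
  rcases hcases with hs | hs
  · left
    refine ⟨hs, ?_⟩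
    have hvu : v = u := by
      rw [hs, neg_smul, neg_inj] at hn
      have := congrArg (fun w => τ.1 • w) hn
      simpa [smul_smul, hsq] using this
    rw [hvu] at hF
    refine ⟨τ.1 • (σ.2 - τ.2), fun z hz => ?_⟩
    have h1 : X τ z ∈ X σ '' P.fc u := by
      rw [hF]
      exact ⟨z, hz, rfl⟩
    obtain ⟨z', hz', h2⟩ := h1
    have h3 : τ.1 • (σ.2 - τ.2) - z = z' := by
      unfold X at h2
      rw [hs] at h2
      have h4 : τ.1 • z' = σ.2 - τ.2 - τ.1 • z := by
        have : -τ.1 • z' + σ.2 = τ.1 • z + τ.2 := h2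
        rw [neg_smul] at this
        have h5 : τ.1 • z' = σ.2 - (τ.1 • z + τ.2) := by
          rw [← this]
          abel
        rw [h5]
        abel
      have h5 := congrArg (fun w => τ.1 • w) h4
      simp only [smul_smul, hsq, one_smul, smul_sub] at h5
      rw [h5, smul_sub]
    rw [h3]
    exact hz'
  · right
    have hvu : v = -u := by
      rw [hs, ← smul_neg] at hn
      have := congrArg (fun w => τ.1 • w) hn
      simpa [smul_smul, hsq] using this
    rw [hvu] at hF hv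
    refine ⟨hs, hv, τ.1 • (τ.2 - σ.2), fun z => ?_⟩
    have key : X τ z = X σ (z + τ.1 • (τ.2 - σ.2)) := by
      unfold X
      rw [hs, smul_add, smul_smul, hsq, one_smul]
      abel
    have hinj : ∀ ρ : ℝ × E, (ρ.1 = 1 ∨ ρ.1 = -1) → ∀ (A : Set E) (w : E),
        X ρ w ∈ X ρ '' A ↔ w ∈ A := by
      intro ρ hρ A w
      constructor
      · rintro ⟨w', hw', h⟩
        have := congrArg (crd ρ) h
        rw [crd_X hρ, crd_X hρ] at this
        rw [← this]
        exact hw'
      · intro h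
        exact ⟨w, h, rfl⟩
    rw [← hinj τ (hT.sign τ hτ) (P.fc u) z, ← hF, key, hinj σ (hT.sign σ hσ)]

/-- COHERENCE IS AUTOMATIC if no facet is both centrally symmetric and a translate of the opposite facet. -/
theorem auto {P : HPoly E} (hP : ∀ u ∈ P.N, ¬ (Csym P u ∧ Tra P u)) {T : Set (ℝ × E)} (hT : IsFF P T) :
    IsTiling P {u | Csym P u} T where
  sign := hT.sign
  cover := hT.cover
  disj := hT.disj
  facet := fun τ hτ u hu => by
    obtain ⟨σ, hσ, hne, hv, h | h⟩ := hT.cases hτ hu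
    · exact ⟨σ, hσ, hne, Or.inl ⟨h.2, h.1⟩, hv⟩
    · exact ⟨σ, hσ, hne, Or.inr ⟨fun hc => hP u hu ⟨hc, h.2⟩, h.1⟩, hv⟩

end Pool.FF56
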