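import Pool.Agent.FF56.Plane

set_option autoImplicit false

/-!
# FF56/Wedge: the wedges around a ridge tile the space

`a i` = real outer normal of the facet through which the `i`-th tile around the ridge is entered, `-a (i+1)` = real
outer normal of the exit. Wedge of the `i`-th tile: `⟪a i, x⟫ ≤ 0 ≤ ⟪a (i+1), x⟫`.
-/

open Finset Set Filter Topology
open scoped RealInnerProductSpace

namespace Pool.FF56

/-- NECESSITY: if the arcs are distinct and the wedges of the first `k` tiles do not overlap, then the cycle has at most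
4 flags, and with 4 flags the number of point reflections is even -/
theorem Cyc.few {m : ℕ} {α β α' β' ε e : ℕ → ℝ} (C : Cyc m α β α' β' ε e)
    (hp : ∀ i < m, ∀ l < m, 0 < α i → β i < 0 → 0 < α l → β l < 0 → i = l)
    (hn : ∀ i < m, ∀ l < m, α i < 0 → 0 < β i → α l < 0 → 0 < β l → i = l)
    (hW1 : e m = 1 → ∀ i < m, ∀ l < m, Wdg α β e i → Wdg α β e l → i = l)
    (hW2 : e m = -1 → ∀ i < 2 * m, ∀ l < 2 * m, Wdg α β e i → Wdg α β e l → i = l) :
    m ≤ 4 ∧ (m = 4 → e m = 1) := by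
  classical
  have hJ : cJ α β m ≤ 2 := by
    unfold cJ
    have h1 : #{i ∈ range m | 0 < α i ∧ β i < 0} ≤ 1 := by
      rw [card_le_one]
      intro i hi l hl
      simp only [Finset.mem_filter, Finset.mem_range] at hi hl
      exact hp i hi.1 l hl.1 hi.2.1 hi.2.2 hl.2.1 hl.2.2
    have h2 : #{i ∈ range m | α i < 0 ∧ 0 < β i} ≤ 1 := by
      rw [card_le_one]
      intro i hi l hl
      simp only [Finset.mem_filter, Finset.mem_range] at hi hl
      exact hn i hi.1 l hl.1 hi.2.1 hi.2.2 hl.2.1 hl.2.2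
    have h3 : {i ∈ range m | α i * β i < 0} ⊆
        {i ∈ range m | 0 < α i ∧ β i < 0} ∪ {i ∈ range m | α i < 0 ∧ 0 < β i} := by
      intro i hi
      simp only [Finset.mem_filter, Finset.mem_range, Finset.mem_union] at hi ⊢
      rcases mul_neg_iff.1 hi.2 with h | h
      · exact Or.inl ⟨hi.1, h⟩
      · exact Or.inr ⟨hi.1, h⟩
    have h4 := (Finset.card_le_card h3).trans (card_union_le _ _)
    omega
  have hcard : ∀ k : ℕ, (∀ i < k, ∀ l < k, Wdg α β e i → Wdg α β e l → i = l) → cW α β e k ≤ 1 := by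
    intro k hk
    unfold cW
    rw [card_le_one]
    intro i hi l hl
    simp only [Finset.mem_filter, Finset.mem_range] at hi hl
    exact hk i hi.1 l hl.1 hi.2 hl.2
  have hbα : ∀ n, e (n + m) * α (n + m) = e m * (e n * α n) := by
    intro n
    rw [C.e_add n, C.pα n]
    ring
  rcases C.e_sq m with h1 | h1
  · have hc := C.count m
    have hb : bb α e m = bb α e 0 := by
      apply bb_eq
      have := hbα 0
      rw [Nat.zero_add] at this
      rw [this, h1, one_mul]
    have hw := hcard m (hW1 h1)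
    rw [hb] at hc
    exact ⟨by omega, fun _ => h1⟩
  · have hc := C.count (m + m)
    have hb : bb α e (m + m) = bb α e 0 := by
      apply bb_eq
      have h2 := hbα m
      have h3 := hbα 0
      rw [Nat.zero_add] at h3
      rw [h2, h3, h1]
      ring
    have hw := hcard (2 * m) (hW2 h1)
    rw [two_mul] at hw
    have hj : cJ α β (m + m) = cJ α β m + cJ α β m := cJ_add C.pα C.pβ m
    rw [hb, hj] at hc
    push_cast at hc
    have : m ≤ 3 := by omega
    exact ⟨by omega, fun h => by omega⟩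

variable {E : Type*} [NormedAddCommGroup E] [InnerProductSpace ℝ E]

/-- a cycle of real entry normals with 3, 4 or 6 tiles -/
structure Ring (k : ℕ) (a : ℕ → E) : Prop where
  k346 : k = 3 ∨ k = 4 ∨ (k = 6 ∧ ∀ i, a (i + 3) = - a i)
  per : ∀ i, a (i + k) = a i
  ind : LinearIndependent ℝ ![a 0, a 1]
  orr : ∀ i, ∃ l m : ℝ, 0 < l ∧ a (i + 2) = -l • a i + m • a (i + 1)

variable {k : ℕ} {a : ℕ → E}

theorem Ring.kpos (C : Ring k a) : 0 < k := by
  rcases C.k346 with h | h | h <;> omega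

theorem Ring.ind_all (C : Ring k a) (i : ℕ) : LinearIndependent ℝ ![a i, a (i + 1)] := by
  induction i with
  | zero => exact C.ind
  | succ i ih =>
    rw [LinearIndependent.pair_iff] at ih ⊢
    intro s t hst
    obtain ⟨l, m, hl, hr⟩ := C.orr i
    rw [show i + 1 + 1 = i + 2 by omega, hr] at hst
    have h1 : (-(t * l)) • a i + (s + t * m) • a (i + 1) = 0 := by
      rw [← hst]
      module
    obtain ⟨h2, h3⟩ := ih _ _ h1
    have ht : t = 0 := by
      have : t * l = 0 := by linarith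
      rcases mul_eq_zero.1 this with h | h
      · exact h
      · exact absurd h hl.ne'
    rw [ht] at h3
    exact ⟨by linarith, ht⟩

theorem Ring.per_mul (C : Ring k a) (i n : ℕ) : a (i + n * k) = a i := by
  induction n with
  | zero => simp
  | succ n ih => rw [show i + (n + 1) * k = (i + n * k) + k by ring, C.per, ih]

theorem Ring.per_mod (C : Ring k a) (i : ℕ) : a (i % k) = a i := by
  have h := C.per_mul (i % k) (i / k)
  rw [← h]
  congr 1
  exact Nat.mod_add_div' i k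

theorem Ring.per_eq (C : Ring k a) {i l : ℕ} (h : i ≡ l [MOD k]) : a i = a l := by
  rw [← C.per_mod i, ← C.per_mod l, h]

/-- (W1) a generic point lies in exactly one wedge -/
theorem Ring.one_wedge (C : Ring k a) (x : E) (hx : ∀ i, ⟪a i, x⟫ ≠ 0) :
    ∃! i, i < k ∧ ⟪a i, x⟫ < 0 ∧ 0 < ⟪a (i + 1), x⟫ := by
  classical
  set w : E := ⟪a 0, x⟫ • a 1 - ⟪a 1, x⟫ • a 0 with hw
  have hw0 : w ≠ 0 := by
    intro h
    have h1 : (-⟪a 1, x⟫) • a 0 + ⟪a 0, x⟫ • a 1 = 0 := by
      rw [← h, hw]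
      module
    exact hx 0 ((LinearIndependent.pair_iff.1 C.ind _ _ h1).2)
  have hD : ∀ i, ⟪a i, x⟫ * ⟪a (i + 1), -w⟫ - ⟪a i, -w⟫ * ⟪a (i + 1), x⟫ < 0 := by
    intro i
    induction i with
    | zero =>
      have h1 : ⟪a 0, x⟫ * ⟪a (0 + 1), -w⟫ - ⟪a 0, -w⟫ * ⟪a (0 + 1), x⟫ = - ⟪w, w⟫ := by
        rw [Nat.zero_add, inner_neg_right, inner_neg_right]
        nth_rewrite 3 [hw]
        rw [inner_sub_left, real_inner_smul_left, real_inner_smul_left]
        ring
      rw [h1]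
      have := real_inner_self_pos.2 hw0
      linarith
    | succ i ih =>
      obtain ⟨l, m, hl, hr⟩ := C.orr i
      rw [show i + 1 + 1 = i + 2 by omega, hr]
      rw [inner_add_left, inner_add_left, real_inner_smul_left, real_inner_smul_left,
        real_inner_smul_left, real_inner_smul_left]
      have h2 : ⟪a (i + 1), x⟫ * (-l * ⟪a i, -w⟫ + m * ⟪a (i + 1), -w⟫) -
          ⟪a (i + 1), -w⟫ * (-l * ⟪a i, x⟫ + m * ⟪a (i + 1), x⟫) =
          l * (⟪a i, x⟫ * ⟪a (i + 1), -w⟫ - ⟪a i, -w⟫ * ⟪a (i + 1), x⟫) := by ring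
      rw [h2]
      exact mul_neg_of_pos_of_neg hl ih
  have hC : Cyc k (fun i => ⟪a i, x⟫) (fun i => -⟪a (i + 1), x⟫) (fun i => ⟪a i, -w⟫)
      (fun i => -⟪a (i + 1), -w⟫) (fun _ => 1) (fun _ => 1) := by
    refine ⟨C.kpos, hx, fun i => neg_ne_zero.2 (hx _), ?_, ?_, ?_, ?_, rfl, ?_, ?_, ?_, ?_, ?_⟩
    · intro i
      have := hD i
      linarith
    · intro i
      simp
    · intro i
      ring
    · intro i
      exact Or.inl rfl
    · intro i
      simp
    · intro i
      rw [C.per]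
    · intro i
      rw [show i + k + 1 = (i + 1) + k by omega, C.per]
    · intro i
      rw [C.per]
    · intro i
      rfl
  have hcount := hC.count k
  have hJ1 := cJ_pos hC.exists_cross
  have hJ2 := cJ_lt hC.exists_noncross
  have hbb : bb (fun i => ⟪a i, x⟫) (fun _ => 1) k = bb (fun i => ⟪a i, x⟫) (fun _ => 1) 0 := by
    apply bb_eq
    have := C.per 0
    rw [Nat.zero_add] at this
    rw [this]
  rw [hbb] at hcount
  have hW : cW (fun i => ⟪a i, x⟫) (fun i => -⟪a (i + 1), x⟫) (fun _ => 1) k = 1 := by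
    rcases C.k346 with h | h | ⟨h, h3⟩
    · subst h
      omega
    · subst h
      omega
    · subst h
      have hJ6 : cJ (fun i => ⟪a i, x⟫) (fun i => -⟪a (i + 1), x⟫) 6 =
          cJ (fun i => ⟪a i, x⟫) (fun i => -⟪a (i + 1), x⟫) 3 +
          cJ (fun i => ⟪a i, x⟫) (fun i => -⟪a (i + 1), x⟫) 3 := by
        have hprod : ∀ i, (⟪a (i + 3), x⟫ * -⟪a (i + 3 + 1), x⟫ < 0) ↔
            (⟪a i, x⟫ * -⟪a (i + 1), x⟫ < 0) := by
          intro i
          rw [h3 i, show i + 3 + 1 = (i + 1) + 3 by omega, h3 (i + 1), inner_neg_left, inner_neg_left]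
          rw [show -⟪a i, x⟫ * - -⟪a (i + 1), x⟫ = ⟪a i, x⟫ * -⟪a (i + 1), x⟫ by ring]
        have e0 := hprod 0
        have e1 := hprod 1
        have e2 := hprod 2
        simp only [Nat.zero_add] at e0 e1 e2
        have f : ∀ n, cJ (fun i => ⟪a i, x⟫) (fun i => -⟪a (i + 1), x⟫) (n + 1) =
            cJ (fun i => ⟪a i, x⟫) (fun i => -⟪a (i + 1), x⟫) n +
              if ⟪a n, x⟫ * -⟪a (n + 1), x⟫ < 0 then 1 else 0 := fun n => cJ_succ _ _ n
        have z : cJ (fun i => ⟪a i, x⟫) (fun i => -⟪a (i + 1), x⟫) 0 = 0 := by simp [cJ]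
        have f0 := f 0
        have f1 := f 1
        have f2 := f 2
        have f3 := f 3
        have f4 := f 4
        have f5 := f 5
        norm_num only [Nat.zero_add] at f0 f1 f2 f3 f4 f5 e0 e1 e2
        rw [f5, f4, f3, f2, f1, f0, z]
        simp only [e0, e1, e2]
        ring
      have hc3 := hC.count 3
      have hb3 : bb (fun i => ⟪a i, x⟫) (fun _ => 1) 3 =
          1 - bb (fun i => ⟪a i, x⟫) (fun _ => 1) 0 := by
        apply hC.bb_neg
        have := h3 0
        rw [Nat.zero_add] at this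
        rw [this, inner_neg_left]
        ring
      rcases bb_cases (fun i => ⟪a i, x⟫) (fun _ => 1) 0 with hb | hb <;>
        rw [hb3, hb] at hc3 <;> omega
  obtain ⟨i₀, hi₀⟩ := Finset.card_eq_one.1 hW
  have hmem : ∀ i, (i < k ∧ Wdg (fun i => ⟪a i, x⟫) (fun i => -⟪a (i + 1), x⟫) (fun _ => 1) i) ↔
      i = i₀ := by
    intro i
    have : i ∈ ({i₀} : Finset ℕ) ↔ i = i₀ := Finset.mem_singleton
    rw [← this, ← hi₀]
    simp
  have hwd : ∀ i, Wdg (fun i => ⟪a i, x⟫) (fun i => -⟪a (i + 1), x⟫) (fun _ => 1) i ↔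
      (⟪a i, x⟫ < 0 ∧ 0 < ⟪a (i + 1), x⟫) := by
    intro i
    unfold Wdg
    simp
  refine ⟨i₀, ?_, ?_⟩
  · have h := (hmem i₀).2 rfl
    exact ⟨h.1, (hwd i₀).1 h.2⟩
  · intro i hi
    exact (hmem i).1 ⟨hi.1, (hwd i).2 hi.2⟩

theorem Ring.ne_zero (C : Ring k a) (i : ℕ) : a i ≠ 0 := (C.ind_all i).ne_zero 0

/-- a generic point in two open wedges -/
theorem Ring.mod_eq (C : Ring k a) {x : E} (hx : ∀ i, ⟪a i, x⟫ ≠ 0) {i l : ℕ}
    (hi : ⟪a i, x⟫ < 0 ∧ 0 < ⟪a (i + 1), x⟫) (hl : ⟪a l, x⟫ < 0 ∧ 0 < ⟪a (l + 1), x⟫) :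
    i ≡ l [MOD k] := by
  obtain ⟨i₀, -, huniq⟩ := C.one_wedge x hx
  have hred : ∀ j, (⟪a j, x⟫ < 0 ∧ 0 < ⟪a (j + 1), x⟫) → j % k = i₀ := by
    intro j hj
    apply huniq
    refine ⟨Nat.mod_lt _ C.kpos, ?_, ?_⟩
    · rw [C.per_mod]
      exact hj.1
    · have h1 : a (j % k + 1) = a (j + 1) :=
        C.per_eq (Nat.ModEq.add_right 1 (Nat.mod_modEq j k))
      rw [h1]
      exact hj.2
  exact (hred i hi).trans (hred l hl).symm

theorem gen_near (b : ℕ → E) (hb : ∀ i, b i ≠ 0) (n : ℕ) : ∀ {U : Set E},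
    IsOpen U → U.Nonempty → ∃ x ∈ U, ∀ i < n, ⟪b i, x⟫ ≠ 0 := by
  have ho : ∀ i, IsOpen {x : E | ⟪b i, x⟫ ≠ 0} := fun i =>
    isOpen_ne_fun (continuous_const.inner continuous_id) continuous_const
  have hd : ∀ i, Dense {x : E | ⟪b i, x⟫ ≠ 0} := by
    intro i
    rw [Metric.dense_iff]
    intro x r hr
    by_cases hx : ⟪b i, x⟫ = 0
    · have hn : 0 < ‖b i‖ := norm_pos_iff.2 (hb i)
      refine ⟨x + (r / 2 / ‖b i‖) • b i, ?_, ?_⟩
      · rw [Metric.mem_ball, dist_eq_norm, add_sub_cancel_left, norm_smul, Real.norm_eq_abs,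
          abs_of_pos (by positivity), div_mul_cancel₀ _ hn.ne']
        linarith
      · show ⟪b i, x + (r / 2 / ‖b i‖) • b i⟫ ≠ 0
        rw [inner_add_right, hx, zero_add, real_inner_smul_right]
        exact mul_ne_zero (by positivity) (real_inner_self_pos.2 (hb i)).ne'
    · exact ⟨x, Metric.mem_ball_self hr, hx⟩
  induction n with
  | zero =>
    intro U _ hne
    obtain ⟨x, hx⟩ := hne
    exact ⟨x, hx, fun i hi => absurd hi (Nat.not_lt_zero _)⟩
  | succ n ih =>
    intro U hU hne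
    obtain ⟨x, ⟨hxU, hx2⟩, hx⟩ := ih (hU.inter (ho n)) ((hd n).inter_open_nonempty U hU hne)
    refine ⟨x, hxU, fun i hi => ?_⟩
    rcases Nat.lt_succ_iff_lt_or_eq.1 hi with h | h
    · exact hx i h
    · rw [h]
      exact hx2

theorem Ring.gen (C : Ring k a) {U : Set E} (hU : IsOpen U) (hne : U.Nonempty) :
    ∃ x ∈ U, ∀ i, ⟪a i, x⟫ ≠ 0 := by
  obtain ⟨x, hxU, hx⟩ := gen_near a C.ne_zero k hU hne
  refine ⟨x, hxU, fun i => ?_⟩
  rw [← C.per_mod i]
  exact hx _ (Nat.mod_lt _ C.kpos)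

/-- (C1) the closed wedges cover -/
theorem Ring.cover (C : Ring k a) (x : E) :
    ∃ i < k, ⟪a i, x⟫ ≤ 0 ∧ 0 ≤ ⟪a (i + 1), x⟫ := by
  classical
  set U : Set E := ⋂ i ∈ Finset.range (k + 1),
    ({y | 0 < ⟪a i, x⟫ → 0 < ⟪a i, y⟫} ∩ {y | ⟪a i, x⟫ < 0 → ⟪a i, y⟫ < 0}) with hU
  have hUo : IsOpen U := by
    apply isOpen_biInter_finset
    intro i _
    apply IsOpen.inter
    · by_cases h : 0 < ⟪a i, x⟫
      · have : {y | 0 < ⟪a i, x⟫ → 0 < ⟪a i, y⟫} = {y | 0 < ⟪a i, y⟫} := by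
          ext y
          simp [h]
        rw [this]
        exact isOpen_lt continuous_const (continuous_const.inner continuous_id)
      · have : {y : E | 0 < ⟪a i, x⟫ → 0 < ⟪a i, y⟫} = Set.univ := by
          ext y
          simp [h]
        rw [this]
        exact isOpen_univ
    · by_cases h : ⟪a i, x⟫ < 0
      · have : {y | ⟪a i, x⟫ < 0 → ⟪a i, y⟫ < 0} = {y | ⟪a i, y⟫ < 0} := by
          ext y
          simp [h]
        rw [this]
        exact isOpen_lt (continuous_const.inner continuous_id) continuous_const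
      · have : {y : E | ⟪a i, x⟫ < 0 → ⟪a i, y⟫ < 0} = Set.univ := by
          ext y
          simp [h]
        rw [this]
        exact isOpen_univ
  have hxU : x ∈ U := by
    rw [hU]
    simp only [Set.mem_iInter, Set.mem_inter_iff, Set.mem_setOf_eq]
    intro i _
    exact ⟨fun h => h, fun h => h⟩
  obtain ⟨y, hyU, hy⟩ := C.gen hUo ⟨x, hxU⟩
  obtain ⟨i, ⟨hik, h1, h2⟩, -⟩ := C.one_wedge y hy
  rw [hU] at hyU
  simp only [Set.mem_iInter, Set.mem_inter_iff, Set.mem_setOf_eq, Finset.mem_range] at hyU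
  refine ⟨i, hik, ?_, ?_⟩
  · by_contra hcon
    have := (hyU i (by omega)).1 (not_le.1 hcon)
    linarith
  · by_contra hcon
    have := (hyU (i + 1) (by omega)).2 (not_le.1 hcon)
    linarith

/-- an interior direction of the wedge -/
theorem Ring.dir (C : Ring k a) (l : ℕ) : ∃ z : E, ⟪a l, z⟫ < 0 ∧ 0 < ⟪a (l + 1), z⟫ := by
  set p := a l with hp
  set q := a (l + 1) with hq
  have hind : LinearIndependent ℝ ![p, q] := C.ind_all l
  have hp0 : 0 < ‖p‖ := norm_pos_iff.2 (C.ne_zero l)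
  have hq0 : 0 < ‖q‖ := norm_pos_iff.2 (C.ne_zero (l + 1))
  have hlt : ⟪p, q⟫ < ‖p‖ * ‖q‖ := by
    rw [inner_lt_norm_mul_iff_real]
    intro h
    have h1 : ‖q‖ • p + (-‖p‖) • q = 0 := by
      rw [h]
      module
    have := (LinearIndependent.pair_iff.1 hind _ _ h1).1
    exact hq0.ne' this
  refine ⟨‖p‖ • q - ‖q‖ • p, ?_, ?_⟩
  · rw [inner_sub_right, real_inner_smul_right, real_inner_smul_right, real_inner_self_eq_norm_sq]
    have : ‖p‖ * ⟪p, q⟫ < ‖p‖ * (‖p‖ * ‖q‖) := mul_lt_mul_of_pos_left hlt hp0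
    nlinarith
  · rw [inner_sub_right, real_inner_smul_right, real_inner_smul_right, real_inner_self_eq_norm_sq,
      real_inner_comm p q]
    have : ‖q‖ * ⟪p, q⟫ < ‖q‖ * (‖p‖ * ‖q‖) := mul_lt_mul_of_pos_left hlt hq0
    nlinarith

/-- if the closed wedges `i` (and `i'`) cover a neighbourhood of `x`, then a closed wedge which contains `x` is one of
them -/
theorem Ring.loc (C : Ring k a) {x : E} {l i i' : ℕ} {V : Set E}
    (hV : IsOpen V) (hxV : x ∈ V)
    (hcov : ∀ y ∈ V, (∀ j, ⟪a j, y⟫ ≠ 0) → (⟪a i, y⟫ < 0 ∧ 0 < ⟪a (i + 1), y⟫) ∨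
      (⟪a i', y⟫ < 0 ∧ 0 < ⟪a (i' + 1), y⟫))
    (hl : ⟪a l, x⟫ ≤ 0 ∧ 0 ≤ ⟪a (l + 1), x⟫) : l ≡ i [MOD k] ∨ l ≡ i' [MOD k] := by
  obtain ⟨z, hz1, hz2⟩ := C.dir l
  have hcont : Continuous fun t : ℝ => x + t • z := by fun_prop
  have h0 : x + (0 : ℝ) • z ∈ V := by simpa using hxV
  have hev : ∀ᶠ t : ℝ in 𝓝 0, x + t • z ∈ V := hcont.continuousAt.eventually_mem (hV.mem_nhds h0)
  obtain ⟨r, hr, hball⟩ := Metric.eventually_nhds_iff.1 hev
  have ht : x + (r / 2) • z ∈ V := by
    apply hball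
    rw [Real.dist_eq, sub_zero, abs_of_pos (by linarith)]
    linarith
  set U : Set E := V ∩ ({y | ⟪a l, y⟫ < 0} ∩ {y | 0 < ⟪a (l + 1), y⟫}) with hU
  have hUo : IsOpen U := hV.inter ((isOpen_lt (continuous_const.inner continuous_id)
    continuous_const).inter (isOpen_lt continuous_const (continuous_const.inner continuous_id)))
  have hmem : x + (r / 2) • z ∈ U := by
    refine ⟨ht, ?_, ?_⟩
    · show ⟪a l, x + (r / 2) • z⟫ < 0
      rw [inner_add_right, real_inner_smul_right]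
      nlinarith [hl.1]
    · show 0 < ⟪a (l + 1), x + (r / 2) • z⟫
      rw [inner_add_right, real_inner_smul_right]
      nlinarith [hl.2]
  obtain ⟨y, hyU, hy⟩ := C.gen hUo ⟨_, hmem⟩
  rcases hcov y hyU.1 hy with h | h
  · exact Or.inl (C.mod_eq hy hyU.2 h)
  · exact Or.inr (C.mod_eq hy hyU.2 h)

theorem Ring.next_pos (C : Ring k a) {x : E} {i : ℕ} (h0 : ⟪a (i + 1), x⟫ = 0) :
    (⟪a i, x⟫ < 0 ↔ 0 < ⟪a (i + 2), x⟫) := by
  obtain ⟨l, m, hl, hr⟩ := C.orr i
  rw [hr, inner_add_left, real_inner_smul_left, real_inner_smul_left, h0, mul_zero, add_zero]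
  constructor
  · intro h
    have := mul_pos_of_neg_of_neg (neg_lt_zero.2 hl) h
    exact this
  · intro h
    by_contra hcon
    have := mul_nonneg hl.le (not_lt.1 hcon)
    linarith

/-- (C2) two closed wedges with a common point -/
theorem Ring.adj (C : Ring k a) {x : E} {i l : ℕ}
    (hi : ⟪a i, x⟫ ≤ 0 ∧ 0 ≤ ⟪a (i + 1), x⟫) (hl : ⟪a l, x⟫ ≤ 0 ∧ 0 ≤ ⟪a (l + 1), x⟫) :
    l ≡ i [MOD k] ∨ (l ≡ i + 1 [MOD k] ∧ ⟪a (i + 1), x⟫ = 0) ∨
      (i ≡ l + 1 [MOD k] ∧ ⟪a (l + 1), x⟫ = 0) ∨ ∀ j, ⟪a j, x⟫ = 0 := by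
  have hcI : Continuous fun y : E => ⟪a i, y⟫ := continuous_const.inner continuous_id
  have hmid : ∀ i : ℕ, ⟪a i, x⟫ < 0 → ⟪a (i + 1), x⟫ = 0 →
      l ≡ i [MOD k] ∨ l ≡ i + 1 [MOD k] := by
    intro i h1 h2
    have h3 := (C.next_pos h2).1 h1
    refine C.loc (V := {y | ⟪a i, y⟫ < 0} ∩ {y | 0 < ⟪a (i + 2), y⟫})
      ((isOpen_lt (continuous_const.inner continuous_id) continuous_const).inter
        (isOpen_lt continuous_const (continuous_const.inner continuous_id))) ⟨h1, h3⟩ ?_ hl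
    intro y hy hgen
    rcases lt_or_gt_of_ne (hgen (i + 1)) with h | h
    · exact Or.inr ⟨h, hy.2⟩
    · exact Or.inl ⟨hy.1, h⟩
  rcases hi.1.lt_or_eq with h1 | h1
  · rcases hi.2.lt_or_eq with h2 | h2
    · left
      have := C.loc (i := i) (i' := i) (V := {y | ⟪a i, y⟫ < 0} ∩ {y | 0 < ⟪a (i + 1), y⟫})
        ((isOpen_lt (continuous_const.inner continuous_id) continuous_const).inter
          (isOpen_lt continuous_const (continuous_const.inner continuous_id))) ⟨h1, h2⟩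
        (fun y hy _ => Or.inl hy) hl
      rcases this with h | h <;> exact h
    · rcases hmid i h1 h2.symm with h | h
      · exact Or.inl h
      · exact Or.inr (Or.inl ⟨h, h2.symm⟩)
  · rcases hi.2.lt_or_eq with h2 | h2
    · have hk := C.kpos
      set i' := i + k - 1 with hi'
      have e1 : i' + 1 = i + k := by omega
      have e2 : i' + 2 = (i + 1) + k := by omega
      have h3 : ⟪a (i' + 1), x⟫ = 0 := by rw [e1, C.per, h1]
      have h4 : 0 < ⟪a (i' + 2), x⟫ := by rw [e2, C.per]; exact h2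
      have h5 := (C.next_pos h3).2 h4
      rcases hmid i' h5 h3 with h | h
      · right; right; left
        have h6 : l + 1 ≡ i [MOD k] := by
          have := h.add_right 1
          rw [e1] at this
          exact this.trans (by simp [Nat.ModEq])
        exact ⟨h6.symm, by rw [C.per_eq h6, h1]⟩
      · left
        rw [e1] at h
        exact h.trans (by simp [Nat.ModEq])
    · right; right; right
      have hall : ∀ n, ⟪a (i + n), x⟫ = 0 ∧ ⟪a (i + n + 1), x⟫ = 0 := by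
        intro n
        induction n with
        | zero => exact ⟨h1, h2.symm⟩
        | succ n ih =>
          refine ⟨ih.2, ?_⟩
          obtain ⟨l', m', -, hr⟩ := C.orr (i + n)
          rw [show i + (n + 1) + 1 = i + n + 2 by omega, hr, inner_add_left, real_inner_smul_left,
            real_inner_smul_left, ih.1, ih.2]
          ring
      intro j
      have hk := C.kpos
      have h3 : a j = a (i + (j + i * k - i)) := by
        rw [← C.per_mul j i]
        congr 1
        have : i ≤ i * k := Nat.le_mul_of_pos_right i hk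
        omega
      rw [h3]
      exact (hall _).1

end Pool.FF56
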