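import Pool.Agent.FF24.Loc
import Pool.Agent.FF24.Act
import Pool.Agent.FF56.Wedge

set_option autoImplicit false

/-!
# FF56/Cone2: the star at a point of a ridge (`cone_two` from `act_two`)
-/

open Set Metric
open scoped RealInnerProductSpace

namespace Pool.FF56

open Pool.FF24

variable {E : Type*} [NormedAddCommGroup E] [InnerProductSpace ℝ E] {P : HPoly E} (g : Glue P)

/-- the active set decides the minimal face and conversely -/
theorem act_of_mf {y y' : E} (hy : y ∈ P.body) (hy' : y' ∈ P.body) (h : P.mf y = P.mf y') :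
    P.act y = P.act y' := by
  have h1 : y' ∈ P.mf y := by rw [h]; exact mf_self hy'
  have h2 : y ∈ P.mf y' := by rw [← h]; exact mf_self hy
  rw [mf_eq hy] at h1
  rw [mf_eq hy'] at h2
  exact Subset.antisymm h1.2 h2.2

theorem act_mem_fc {y u : E} (hy : y ∈ P.body) (hu : u ∈ P.act y) : y ∈ P.fc u := ⟨hy, hu.2⟩

/-- the next active set depends only on the active set -/
theorem act_j_congr {y y' v : E} (hy : y ∈ P.body) (hy' : y' ∈ P.body) (h : P.act y = P.act y')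
    (hv : v ∈ P.act y) : P.act (g.j v y) = P.act (g.j v y') := by
  have hv' : v ∈ P.act y' := h ▸ hv
  have e : P.mf y = P.mf y' := by rw [mf_eq hy, mf_eq hy', h]
  have h1 := j_mf g hv.1 (act_mem_fc hy hv)
  have h2 := j_mf g hv.1 (act_mem_fc hy' hv')
  rw [e, h2] at h1
  exact (act_of_mf (j_mem g hv.1 (act_mem_fc hy' hv')).1 (j_mem g hv.1 (act_mem_fc hy hv)).1 h1).symm

/-- a tile at the ridge together with its flag -/
structure Tl (g : Glue P) (p : E) where
  τ : g.Lab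
  u : E
  v : E
  mem : p ∈ g.K τ
  ne : u ≠ v
  act : P.act (crd τ.1 p) = {u, v}

variable {g} {p : E}

theorem Tl.ext' {s s' : Tl g p} (h1 : s.τ = s'.τ) (h2 : s.u = s'.u) (h3 : s.v = s'.v) : s = s' := by
  cases s
  cases s'
  simp only at h1 h2 h3
  subst h1 h2 h3
  rfl

theorem Tl.hu (s : Tl g p) : s.u ∈ P.act (crd s.τ.1 p) := by
  rw [s.act]
  exact Set.mem_insert _ _

theorem Tl.hv (s : Tl g p) : s.v ∈ P.act (crd s.τ.1 p) := by
  rw [s.act]
  exact Set.mem_insert_of_mem _ (Set.mem_singleton _)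

/-- the next tile -/
def Nx (s s' : Tl g p) : Prop :=
  s'.τ.1 = g.nb s.v s.τ.1 ∧ s'.u = g.star s.v ∧ ∃ a b : ℝ, 0 < a ∧
    ((s.v ∈ g.I ∧ s'.v = -(a • s.u + b • s.v)) ∨ (s.v ∉ g.I ∧ s'.v = a • s.u + b • s.v))

theorem exists_nx (H : ∀ {u v y : E}, y ∈ P.body → u ≠ v → P.act y = {u, v} →
    ∃ (w : E) (a b : ℝ), P.act (g.j v y) = {g.star v, w} ∧ g.star v ≠ w ∧ 0 < a ∧
      ((v ∈ g.I ∧ w = -(a • u + b • v)) ∨ (v ∉ g.I ∧ w = a • u + b • v))) (s : Tl g p) :
    ∃ s' : Tl g p, Nx s s' := by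
  obtain ⟨w, a, b, h1, h2, ha, h3⟩ := H s.mem s.ne s.act
  have hst : g.St p s.τ (nbL g s.hv.1 s.τ) := ⟨s.v, s.hv.1, act_mem_fc s.mem s.hv, rfl⟩
  have hc : crd (nbL g s.hv.1 s.τ).1 p = g.j s.v (crd s.τ.1 p) :=
    crd_nb g (sign g s.τ) s.v p
  refine ⟨⟨nbL g s.hv.1 s.τ, g.star s.v, w, St_mem g hst, h2, ?_⟩, rfl, rfl, a, b, ha, h3⟩
  rw [hc, h1]

theorem sgn_nb_in {v : E} {τ : ℝ × E} (h : v ∈ g.I) : (g.nb v τ).1 = -τ.1 := by
  unfold Glue.nb
  rw [if_pos h]

theorem sgn_nb_notin {v : E} {τ : ℝ × E} (h : v ∉ g.I) : (g.nb v τ).1 = τ.1 := by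
  unfold Glue.nb
  rw [if_neg h]

/-- real entry normal -/
def Tl.A (s : Tl g p) : E := s.τ.1.1 • s.u

theorem Nx.A_eq {s s' : Tl g p} (h : Nx s s') : s'.A = -(s.τ.1.1 • s.v) := by
  unfold Tl.A
  rw [h.2.1, h.1]
  by_cases hI : s.v ∈ g.I
  · rw [sgn_nb_in hI, Glue.star, if_pos hI, neg_smul]
  · rw [sgn_nb_notin hI, Glue.star, if_neg hI, smul_neg]

theorem Nx.orr {s s' s'' : Tl g p} (h : Nx s s') (h' : Nx s' s'') :
    ∃ l m : ℝ, 0 < l ∧ s''.A = -l • s.A + m • s'.A := by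
  obtain ⟨a, b, ha, h3⟩ := h.2.2
  refine ⟨a, b, ha, ?_⟩
  rw [h'.A_eq, h.A_eq, h.1]
  unfold Tl.A
  rcases h3 with ⟨hI, hw⟩ | ⟨hI, hw⟩
  · rw [sgn_nb_in hI, hw]
    module
  · rw [sgn_nb_notin hI, hw]
    module

theorem Nx.cross {s s' : Tl g p} (h : Nx s s') : g.Cross (s.u, s.v) (s'.u, s'.v) := by
  refine ⟨s.ne, s'.ne, h.2.1, crd s.τ.1 p, s.mem, s.act, ?_⟩
  have : crd s'.τ.1 p = g.j s.v (crd s.τ.1 p) := by
    rw [h.1]
    exact crd_nb g (sign g s.τ) s.v p
  rw [← this]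
  exact s'.act

/-- the next flag is determined by the flag -/
theorem Nx.flag {s s' t t' : Tl g p} (h : Nx s s') (k : Nx t t') (hu : s.u = t.u) (hv : s.v = t.v) :
    s'.u = t'.u ∧ s'.v = t'.v := by
  have h1 : s'.u = t'.u := by rw [h.2.1, k.2.1, hv]
  refine ⟨h1, ?_⟩
  have e1 : crd s'.τ.1 p = g.j s.v (crd s.τ.1 p) := by
    rw [h.1]
    exact crd_nb g (sign g s.τ) s.v p
  have e2 : crd t'.τ.1 p = g.j t.v (crd t.τ.1 p) := by
    rw [k.1]
    exact crd_nb g (sign g t.τ) t.v p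
  have hact : P.act (crd s.τ.1 p) = P.act (crd t.τ.1 p) := by rw [s.act, t.act, hu, hv]
  have e3 : P.act (crd s'.τ.1 p) = P.act (crd t'.τ.1 p) := by
    rw [e1, e2, ← hv]
    exact act_j_congr g s.mem t.mem hact s.hv
  rw [s'.act, t'.act, h1] at e3
  have h4 : s'.v ∈ ({t'.u, t'.v} : Set E) := by
    rw [← e3]
    exact Set.mem_insert_of_mem _ (Set.mem_singleton _)
  rcases h4 with h4 | h4
  · exact absurd (h1.trans h4.symm) s'.ne
  · exact h4

theorem Nx.sgn {s s' t t' : Tl g p} (h : Nx s s') (k : Nx t t') (hv : s.v = t.v) {c : ℝ}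
    (hc : t.τ.1.1 = c * s.τ.1.1) : t'.τ.1.1 = c * s'.τ.1.1 := by
  rw [h.1, k.1, ← hv]
  by_cases hI : s.v ∈ g.I
  · rw [sgn_nb_in hI, sgn_nb_in hI, hc]
    ring
  · rw [sgn_nb_notin hI, sgn_nb_notin hI, hc]

theorem Nx.st {s s' : Tl g p} (h : Nx s s') : g.St p s.τ s'.τ :=
  ⟨s.v, s.hv.1, act_mem_fc s.mem s.hv, h.1⟩

theorem Nx.back {s s' : Tl g p} (h : Nx s s') : s.τ.1 = g.nb s'.u s'.τ.1 := by
  rw [h.2.1, h.1, nb_nb g s.hv.1]

theorem chain_R {s : ℕ → Tl g p} (hs : ∀ i, Nx (s i) (s (i + 1))) (i : ℕ) :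
    g.R p (s 0).τ (s i).τ := by
  induction i with
  | zero => exact R_refl g (s 0).mem
  | succ i ih => exact R_step g ih (hs i).st

theorem chain_eq {s : ℕ → Tl g p} (hs : ∀ i, Nx (s i) (s (i + 1))) {n : ℕ}
    (hu : (s n).u = (s 0).u) (hv : (s n).v = (s 0).v) (he : (s n).τ.1.1 = (s 0).τ.1.1) :
    s n = s 0 := by
  refine Tl.ext' ?_ hu hv
  refine lab_eq g (chain_R hs n) (chain_R hs 0) he ?_
  rw [(s n).act, (s 0).act, hu, hv]

theorem chain_sgn {s : ℕ → Tl g p} (hs : ∀ i, Nx (s i) (s (i + 1))) (n : ℕ)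
    [DecidablePred fun i => (s i).v ∈ g.I] :
    (s n).τ.1.1 = (-1) ^ (((Finset.range n).filter fun i => (s i).v ∈ g.I).card) *
      (s 0).τ.1.1 := by
  induction n with
  | zero => simp
  | succ n ih =>
    rw [(hs n).1, Finset.range_add_one, Finset.filter_insert]
    by_cases hI : (s n).v ∈ g.I
    · rw [sgn_nb_in hI, if_pos hI, Finset.card_insert_of_notMem (by simp), ih, pow_succ]
      ring
    · rw [sgn_nb_notin hI, if_neg hI, ih]

theorem ring_of_chain (hC : g.Cyc) {s : ℕ → Tl g p} (hs : ∀ i, Nx (s i) (s (i + 1)))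
    (f : Tl g p → Tl g p) (hf : ∀ i, s (i + 1) = f (s i)) :
    ∃ k, Ring k (fun i => (s i).A) ∧ ∀ i, s (i + k) = s i := by
  classical
  have hper : ∀ k, s k = s 0 → ∀ i, s (i + k) = s i := by
    intro k hk i
    induction i with
    | zero => rw [Nat.zero_add, hk]
    | succ i ih => rw [show i + 1 + k = (i + k) + 1 by omega, hf, ih, ← hf]
  have hind : LinearIndependent ℝ ![(s 0).A, (s 1).A] := by
    have h1 := act_pair (s 0).mem (s 0).hu (s 0).hv (s 0).ne
    rw [(hs 0).A_eq]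
    unfold Tl.A
    rw [LinearIndependent.pair_iff] at h1 ⊢
    intro x y hxy
    have h2 : (x * (s 0).τ.1.1) • (s 0).u + (-(y * (s 0).τ.1.1)) • (s 0).v = 0 := by
      rw [← hxy]
      module
    obtain ⟨h3, h4⟩ := h1 _ _ h2
    have hne : (s 0).τ.1.1 ≠ 0 := by
      rcases sign g (s 0).τ with h | h <;> rw [h] <;> norm_num
    rw [neg_eq_zero] at h4
    exact ⟨(mul_eq_zero.1 h3).resolve_right hne, (mul_eq_zero.1 h4).resolve_right hne⟩
  have horr : ∀ i, ∃ l m : ℝ, 0 < l ∧ (s (i + 2)).A = -l • (s i).A + m • (s (i + 1)).A :=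
    fun i => (hs i).orr (hs (i + 1))
  have hA : ∀ k, s k = s 0 → ∀ i, (s (i + k)).A = (s i).A := fun k hk i => by rw [hper k hk i]
  rcases hC (fun i => ((s i).u, (s i).v)) (fun i => (hs i).cross) with h3 | ⟨h4, hev⟩
  · have hu : (s 3).u = (s 0).u := congrArg Prod.fst h3
    have hv : (s 3).v = (s 0).v := congrArg Prod.snd h3
    have he : (s 3).τ.1.1 = (s 0).τ.1.1 ∨ (s 3).τ.1.1 = -1 * (s 0).τ.1.1 := by
      rcases sign g (s 3).τ with h | h <;> rcases sign g (s 0).τ with h' | h' <;> rw [h, h'] <;>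
        norm_num
    rcases he with he | he
    · have h := chain_eq hs hu hv he
      exact ⟨3, ⟨Or.inl rfl, hA 3 h, hind, horr⟩, hper 3 h⟩
    · have hfl : ∀ i, (s (i + 3)).u = (s i).u ∧ (s (i + 3)).v = (s i).v := by
        intro i
        induction i with
        | zero => exact ⟨hu, hv⟩
        | succ i ih => exact (hs (i + 3)).flag (hs i) ih.1 ih.2
      have hsg : ∀ i, (s (i + 3)).τ.1.1 = -1 * (s i).τ.1.1 := by
        intro i
        induction i with
        | zero => exact he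
        | succ i ih => exact (hs i).sgn (hs (i + 3)) (hfl i).2.symm ih
      have hA3 : ∀ i, (s (i + 3)).A = - (s i).A := by
        intro i
        unfold Tl.A
        rw [hsg i, (hfl i).1, neg_one_mul, neg_smul]
      have h6 : s 6 = s 0 := by
        refine chain_eq hs ?_ ?_ ?_
        · exact (hfl 3).1.trans hu
        · exact (hfl 3).2.trans hv
        · rw [hsg 3, he]
          ring
      exact ⟨6, ⟨Or.inr (Or.inr ⟨rfl, hA3⟩), hA 6 h6, hind, horr⟩, hper 6 h6⟩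
  · have hu : (s 4).u = (s 0).u := congrArg Prod.fst h4
    have hv : (s 4).v = (s 0).v := congrArg Prod.snd h4
    have he : (s 4).τ.1.1 = (s 0).τ.1.1 := by
      rw [chain_sgn hs 4]
      have h1 : (-1 : ℝ) ^ (((Finset.range 4).filter fun i => (s i).v ∈ g.I).card) = 1 := by
        apply Even.neg_one_pow
        exact hev
      rw [h1, one_mul]
    have h := chain_eq hs hu hv he
    exact ⟨4, ⟨Or.inr (Or.inl rfl), hA 4 h, hind, horr⟩, hper 4 h⟩

theorem star_chain {s : ℕ → Tl g p} (hs : ∀ i, Nx (s i) (s (i + 1))) {k : ℕ} (hk : 0 < k)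
    (hper : ∀ i, s (i + k) = s i) {σ : g.Lab} (h : g.R p (s 0).τ σ) : ∃ i, σ = (s i).τ := by
  obtain ⟨-, h⟩ := h
  induction h with
  | refl => exact ⟨0, rfl⟩
  | tail _ hst ih =>
    obtain ⟨i, rfl⟩ := ih
    obtain ⟨u', hu', hfc, hnb⟩ := hst
    have hmem : u' ∈ P.act (crd (s i).τ.1 p) := ⟨hu', hfc.2⟩
    rw [(s i).act] at hmem
    rcases hmem with h1 | h1
    · refine ⟨i + k - 1, ?_⟩
      have h2 := (hs (i + k - 1)).back
      rw [show i + k - 1 + 1 = i + k by omega, hper, ← h1, ← hnb] at h2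
      exact Subtype.ext h2.symm
    · refine ⟨i + 1, Subtype.ext ?_⟩
      rw [hnb, (hs i).1]
      rw [Set.mem_singleton_iff] at h1
      rw [h1]

theorem Tl.cone_iff {s s' : Tl g p} (h : Nx s s') (x : E) :
    x ∈ cone g p s.τ ↔ ⟪s.A, x⟫ ≤ 0 ∧ 0 ≤ ⟪s'.A, x⟫ := by
  rw [h.A_eq]
  unfold cone Tl.A
  rw [inner_neg_left, real_inner_smul_left, real_inner_smul_left, s.act]
  constructor
  · intro hx
    refine ⟨hx _ (Set.mem_insert _ _), ?_⟩
    have := hx _ (Set.mem_insert_of_mem _ (Set.mem_singleton _))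
    linarith
  · rintro ⟨h1, h2⟩ w hw
    rcases hw with hw | hw
    · rw [hw]
      exact h1
    · rw [Set.mem_singleton_iff] at hw
      rw [hw]
      linarith

/-- `cone_two` from `act_two` -/
theorem cone_two_of (H : ∀ {u v y : E}, y ∈ P.body → u ≠ v → P.act y = {u, v} →
    ∃ (w : E) (a b : ℝ), P.act (g.j v y) = {g.star v, w} ∧ g.star v ≠ w ∧ 0 < a ∧
      ((v ∈ g.I ∧ w = -(a • u + b • v)) ∨ (v ∉ g.I ∧ w = a • u + b • v)))
    (hC : g.Cyc) {p u v : E} {τ : g.Lab} (hp : p ∈ g.K τ) (huv : u ≠ v)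
    (h : P.act (crd τ.1 p) = {u, v}) :
    (∀ x, ∃ σ, g.R p τ σ ∧ x ∈ cone g p σ) ∧
    ∀ x σ σ', g.R p τ σ → g.R p τ σ' → x ∈ cone g p σ → x ∈ cone g p σ' →
      Relation.ReflTransGen (StC g p x) σ σ' := by
  choose f hf using fun s : Tl g p => exists_nx H s
  set s : ℕ → Tl g p := fun i => f^[i] ⟨τ, u, v, hp, huv, h⟩ with hsdef
  have hs1 : ∀ i, s (i + 1) = f (s i) := fun i => by
    rw [hsdef]
    exact Function.iterate_succ_apply' f i _
  have hs : ∀ i, Nx (s i) (s (i + 1)) := fun i => by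
    rw [hs1]
    exact hf _
  have hs0 : (s 0).τ = τ := rfl
  obtain ⟨k, hR, hper⟩ := ring_of_chain hC hs f hs1
  have hk := hR.kpos
  have hperA : ∀ {i l : ℕ}, i ≡ l [MOD k] → (s i).τ = (s l).τ := by
    have hmul : ∀ i n, s (i + n * k) = s i := by
      intro i n
      induction n with
      | zero => simp
      | succ n ih => rw [show i + (n + 1) * k = (i + n * k) + k by ring, hper, ih]
    have hmod : ∀ i, s (i % k) = s i := by
      intro i
      rw [← hmul (i % k) (i / k)]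
      congr 1
      exact Nat.mod_add_div' i k
    intro i l hil
    rw [← hmod i, ← hmod l, hil]
  constructor
  · intro x
    obtain ⟨i, -, hi⟩ := hR.cover x
    refine ⟨(s i).τ, ?_, (Tl.cone_iff (hs i) x).2 hi⟩
    rw [← hs0]
    exact chain_R hs i
  · intro x σ σ' hσ hσ' hx hx'
    rw [← hs0] at hσ hσ'
    obtain ⟨i, rfl⟩ := star_chain hs hk hper hσ
    obtain ⟨l, rfl⟩ := star_chain hs hk hper hσ'
    have h1 := (Tl.cone_iff (hs i) x).1 hx
    have h2 := (Tl.cone_iff (hs l) x).1 hx'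
    have hstep : ∀ j, x ∈ cone g p (s j).τ → ⟪(s (j + 1)).A, x⟫ = 0 →
        StC g p x (s j).τ (s (j + 1)).τ := by
      intro j hj h0
      refine ⟨hj, (s j).v, (s j).hv, ?_, (hs j).1⟩
      rw [(hs j).A_eq, inner_neg_left, real_inner_smul_left] at h0
      linarith
    rcases hR.adj h1 h2 with h | ⟨h, h0⟩ | ⟨h, h0⟩ | h0
    · rw [hperA h]
    · rw [hperA h]
      exact Relation.ReflTransGen.single (hstep i hx h0)
    · have e1 : (s i).τ = (s (l + 1)).τ := hperA h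
      rw [e1] at hx ⊢
      apply Relation.ReflTransGen.single
      refine ⟨hx, (s (l + 1)).u, (s (l + 1)).hu, ?_, (hs l).back⟩
      rw [← real_inner_smul_left]
      exact h0
    · have hall : ∀ n, Relation.ReflTransGen (StC g p x) (s i).τ (s (i + n)).τ := by
        intro n
        induction n with
        | zero => exact Relation.ReflTransGen.refl
        | succ n ih =>
          refine ih.tail (hstep (i + n) ?_ (h0 _))
          rw [Tl.cone_iff (hs (i + n)) x]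
          exact ⟨(h0 _).le, (h0 _).ge⟩
      have h3 : (s (i + (l + i * k - i))).τ = (s l).τ := by
        apply hperA
        have : i ≤ i * k := Nat.le_mul_of_pos_right i hk
        rw [show i + (l + i * k - i) = l + i * k by omega]
        simp [Nat.ModEq]
      rw [← h3]
      exact hall _

end Pool.FF56
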