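import Pool.Agent.FF25.Step

set_option autoImplicit false

/-!
# FF56/Belt: a varying facet has closed belts of four or six facets (case analysis)

`a`, `w` orthonormal; everything happens in the plane of `a`, `w`. The facet `a` is centrally symmetric and a translate
(by `t`) of the opposite facet `-a`. `q`, `u` = the neighbours of `a`, `r`, `v` = the neighbours of `-a`:
`act y1 = {a, u}`, `act y2 = {a, q}`, `act (y1 + t) = {-a, v}`, `act (y2 + t) = {-a, r}`; `q`, `r` on the side of `w`, `u`, `v`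
on the other side. `T1`, `T2` = the patterns at a T-wall, `I` = the pattern at an I-wall.
-/

open Set Metric
open scoped RealInnerProductSpace

namespace Pool.FF56

open Pool.FF24 Pool.FF25

variable {E : Type*} [NormedAddCommGroup E] [InnerProductSpace ℝ E] {P : HPoly E}

/-- the determinant in the plane of `a`, `w` -/
def dt (a w p q : E) : ℝ := ⟪p, a⟫ * ⟪q, w⟫ - ⟪p, w⟫ * ⟪q, a⟫

/-- `p` lies in the plane of `a`, `w` -/
def InP (a w p : E) : Prop := p = ⟪p, a⟫ • a + ⟪p, w⟫ • w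

theorem dt_neg_left (a w p q : E) : dt a w (-p) q = -dt a w p q := by
  unfold dt
  rw [inner_neg_left, inner_neg_left]
  ring

theorem dt_neg_right (a w p q : E) : dt a w p (-q) = -dt a w p q := by
  unfold dt
  rw [inner_neg_left, inner_neg_left]
  ring

theorem dt_swap (a w p q : E) : dt a w p q = -dt a w q p := by
  unfold dt
  ring

theorem dt_self (a w p : E) : dt a w p p = 0 := by
  unfold dt
  ring

theorem dt_comb (a w p q x : E) (α β : ℝ) :
    dt a w x (α • p + β • q) = α * dt a w x p + β * dt a w x q := by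
  unfold dt
  rw [inner_add_left, inner_add_left, real_inner_smul_left, real_inner_smul_left,
    real_inner_smul_left, real_inner_smul_left]
  ring

theorem InP.neg {a w p : E} (h : InP a w p) : InP a w (-p) := by
  unfold InP at *
  rw [inner_neg_left, inner_neg_left]
  nth_rewrite 1 [h]
  module

theorem InP.comb {a w p q : E} (h : InP a w p) (k : InP a w q) (α β : ℝ) : InP a w (α • p + β • q) := by
  unfold InP at *
  rw [inner_add_left, inner_add_left, real_inner_smul_left, real_inner_smul_left,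
    real_inner_smul_left, real_inner_smul_left]
  nth_rewrite 1 [h, k]
  module

theorem dt_id {a w p q r : E} (hp : InP a w p) (hq : InP a w q) (hr : InP a w r) :
    dt a w p q • r = dt a w r q • p + dt a w p r • q := by
  unfold InP at hp hq hr
  unfold dt
  generalize ⟪p, a⟫ = p1 at *
  generalize ⟪p, w⟫ = p2 at *
  generalize ⟪q, a⟫ = q1 at *
  generalize ⟪q, w⟫ = q2 at *
  generalize ⟪r, a⟫ = r1 at *
  generalize ⟪r, w⟫ = r2 at *
  rw [hp, hq, hr]
  module

/-- `a`, `w` orthonormal -/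
structure Orn (a w : E) : Prop where
  aa : ⟪a, a⟫ = 1
  ww : ⟪w, w⟫ = 1
  aw : ⟪a, w⟫ = 0

theorem Orn.neg {a w : E} (h : Orn a w) : Orn a (-w) :=
  ⟨h.aa, by rw [inner_neg_neg]; exact h.ww, by rw [inner_neg_right, h.aw, neg_zero]⟩

theorem Orn.inp_a {a w : E} (h : Orn a w) : InP a w a := by
  unfold InP
  rw [h.aa, h.aw]
  module

theorem dt_a {a w : E} (h : Orn a w) (p : E) : dt a w a p = ⟪p, w⟫ := by
  unfold dt
  rw [h.aa, h.aw]
  ring

theorem dt_zero {a w p q : E} (h : Orn a w) (hp : InP a w p) (hq : InP a w q) (np : ‖p‖ = 1)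
    (nq : ‖q‖ = 1) (h0 : dt a w p q = 0) : q = p ∨ q = -p := by
  have hpq := dt_id hp hq h.inp_a
  -- coordinates
  have hp' : p = ⟪p, a⟫ • a + ⟪p, w⟫ • w := hp
  have hq' : q = ⟪q, a⟫ • a + ⟪q, w⟫ • w := hq
  have e1 : ⟪p, a⟫ ^ 2 + ⟪p, w⟫ ^ 2 = 1 := by
    have h1 : ⟪p, p⟫ = 1 := by rw [real_inner_self_eq_norm_sq, np]; norm_num
    nth_rewrite 2 [hp'] at h1
    rw [inner_add_right, real_inner_smul_right, real_inner_smul_right] at h1
    nlinarith
  have e2 : ⟪q, a⟫ ^ 2 + ⟪q, w⟫ ^ 2 = 1 := by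
    have h1 : ⟪q, q⟫ = 1 := by rw [real_inner_self_eq_norm_sq, nq]; norm_num
    nth_rewrite 2 [hq'] at h1
    rw [inner_add_right, real_inner_smul_right, real_inner_smul_right] at h1
    nlinarith
  have e3 : ⟪p, a⟫ * ⟪q, w⟫ - ⟪p, w⟫ * ⟪q, a⟫ = 0 := h0
  have e4 : (⟪p, a⟫ * ⟪q, a⟫ + ⟪p, w⟫ * ⟪q, w⟫) ^ 2 = 1 := by
    have : (⟪p, a⟫ * ⟪q, a⟫ + ⟪p, w⟫ * ⟪q, w⟫) ^ 2 + (⟪p, a⟫ * ⟪q, w⟫ - ⟪p, w⟫ * ⟪q, a⟫) ^ 2 =
        (⟪p, a⟫ ^ 2 + ⟪p, w⟫ ^ 2) * (⟪q, a⟫ ^ 2 + ⟪q, w⟫ ^ 2) := by ring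
    rw [e3, e1, e2] at this
    linarith
  have e5 : ⟪p, q⟫ = ⟪p, a⟫ * ⟪q, a⟫ + ⟪p, w⟫ * ⟪q, w⟫ := by
    nth_rewrite 1 [hq']
    rw [inner_add_right, real_inner_smul_right, real_inner_smul_right]
    ring
  rw [← e5] at e4
  have e6 : ⟪p, q⟫ = 1 ∨ ⟪p, q⟫ = -1 := by
    have : (⟪p, q⟫ - 1) * (⟪p, q⟫ + 1) = 0 := by ring_nf; linarith
    rcases mul_eq_zero.1 this with h1 | h1
    · left; linarith
    · right; linarith
  rcases e6 with h1 | h1
  · left
    have h2 : ‖q - p‖ ^ 2 = 0 := by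
      rw [norm_sub_sq_real, nq, np, real_inner_comm, h1]
      norm_num
    have h3 : ‖q - p‖ = 0 := by
      rcases pow_eq_zero_iff (two_ne_zero) |>.1 h2 with h4
      exact h4
    exact sub_eq_zero.1 (norm_eq_zero.1 h3)
  · right
    have h2 : ‖q + p‖ ^ 2 = 0 := by
      rw [norm_add_sq_real, nq, np, real_inner_comm, h1]
      norm_num
    have h3 : ‖q + p‖ = 0 := by
      rcases pow_eq_zero_iff (two_ne_zero) |>.1 h2 with h4
      exact h4
    exact eq_neg_of_add_eq_zero_left (norm_eq_zero.1 h3)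

/-- no facet normal strictly inside the arc of a flag -/
theorem ord_in {a w x y n z : E} (hz : z ∈ P.body) (hxy : x ≠ y) (h : P.act z = {x, y})
    (hx : InP a w x) (hy : InP a w y) (hn : InP a w n) (hnN : n ∈ P.N) (hD : 0 < dt a w x y) :
    ¬ (0 < dt a w x n ∧ 0 < dt a w n y) := by
  rintro ⟨h1, h2⟩
  have hid := dt_id hx hy hn
  obtain ⟨z', hz', hact'⟩ := P.real n hnN
  have hxz : x ∈ P.act z := by rw [h]; exact mem_insert _ _
  have hyz : y ∈ P.act z := by rw [h]; exact mem_insert_of_mem _ (mem_singleton _)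
  have e1 : dt a w x y * ⟪n, z⟫ = dt a w n y * ⟪x, z⟫ + dt a w x n * ⟪y, z⟫ := by
    rw [← real_inner_smul_left, hid, inner_add_left, real_inner_smul_left, real_inner_smul_left]
  have e2 : dt a w x y * ⟪n, z'⟫ = dt a w n y * ⟪x, z'⟫ + dt a w x n * ⟪y, z'⟫ := by
    rw [← real_inner_smul_left, hid, inner_add_left, real_inner_smul_left, real_inner_smul_left]
  have e3 : ⟪n, z'⟫ = P.h n := (hact' n hnN).2 rfl
  have e4 : ⟪n, z⟫ ≤ P.h n := hz n hnN
  have e5 : ⟪x, z'⟫ ≤ P.h x := hz' x hxz.1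
  have e6 : ⟪y, z'⟫ ≤ P.h y := hz' y hyz.1
  rw [hxz.2, hyz.2] at e1
  rw [e3] at e2
  have e7 : dt a w x y * ⟪n, z⟫ ≤ dt a w x y * P.h n := mul_le_mul_of_nonneg_left e4 hD.le
  have e8 : dt a w n y * ⟪x, z'⟫ ≤ dt a w n y * P.h x := mul_le_mul_of_nonneg_left e5 h2.le
  have e9 : dt a w x n * ⟪y, z'⟫ ≤ dt a w x n * P.h y := mul_le_mul_of_nonneg_left e6 h1.le
  have e10 : dt a w n y * ⟪x, z'⟫ = dt a w n y * P.h x := by linarith
  have e11 : dt a w x n * ⟪y, z'⟫ = dt a w x n * P.h y := by linarith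
  have e12 : ⟪x, z'⟫ = P.h x := mul_left_cancel₀ h2.ne' e10
  have e13 : ⟪y, z'⟫ = P.h y := mul_left_cancel₀ h1.ne' e11
  exact hxy (((hact' x hxz.1).1 e12).trans ((hact' y hyz.1).1 e13).symm)

/-- two flags with the same end -/
theorem same_end {a w x x' e z z' : E} (ho : Orn a w) (hz : z ∈ P.body) (hz' : z' ∈ P.body)
    (h : P.act z = {x, e}) (h' : P.act z' = {x', e}) (hx : InP a w x) (hx' : InP a w x')
    (he : InP a w e) (hD : 0 < dt a w x e) (hD' : 0 < dt a w x' e) : x' = x := by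
  have hxN : x ∈ P.act z := by rw [h]; exact mem_insert _ _
  have hxN' : x' ∈ P.act z' := by rw [h']; exact mem_insert _ _
  have hne : x ≠ e := by
    rintro rfl
    rw [dt_self] at hD
    exact lt_irrefl _ hD
  have hne' : x' ≠ e := by
    rintro rfl
    rw [dt_self] at hD'
    exact lt_irrefl _ hD'
  have h1 := ord_in hz hne h hx he hx' hxN'.1 hD
  have h2 := ord_in hz' hne' h' hx' he hx hxN.1 hD'
  have h3 : dt a w x x' ≤ 0 := by
    by_contra hc
    exact h1 ⟨not_le.1 hc, hD'⟩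
  have h4 : dt a w x' x ≤ 0 := by
    by_contra hc
    exact h2 ⟨not_le.1 hc, hD⟩
  have h5 : dt a w x x' = 0 := by
    rw [dt_swap] at h4
    linarith
  rcases dt_zero ho hx hx' (P.unit _ hxN.1) (P.unit _ hxN'.1) h5 with h6 | h6
  · exact h6
  · rw [h6, dt_neg_left] at hD'
    linarith

/-- two flags with the same start -/
theorem same_start {a w x x' e z z' : E} (ho : Orn a w) (hz : z ∈ P.body) (hz' : z' ∈ P.body)
    (h : P.act z = {e, x}) (h' : P.act z' = {e, x'}) (hx : InP a w x) (hx' : InP a w x')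
    (he : InP a w e) (hD : 0 < dt a w e x) (hD' : 0 < dt a w e x') : x' = x := by
  have hxN : x ∈ P.act z := by rw [h]; exact mem_insert_of_mem _ (mem_singleton _)
  have hxN' : x' ∈ P.act z' := by rw [h']; exact mem_insert_of_mem _ (mem_singleton _)
  have hne : e ≠ x := by
    rintro rfl
    rw [dt_self] at hD
    exact lt_irrefl _ hD
  have hne' : e ≠ x' := by
    rintro rfl
    rw [dt_self] at hD'
    exact lt_irrefl _ hD'
  have h1 := ord_in hz hne h he hx hx' hxN'.1 hD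
  have h2 := ord_in hz' hne' h' he hx' hx hxN.1 hD'
  have h3 : dt a w x' x ≤ 0 := by
    by_contra hc
    exact h1 ⟨hD', not_le.1 hc⟩
  have h4 : dt a w x x' ≤ 0 := by
    by_contra hc
    exact h2 ⟨hD, not_le.1 hc⟩
  have h5 : dt a w x x' = 0 := by
    rw [dt_swap] at h3
    linarith
  rcases dt_zero ho hx hx' (P.unit _ hxN.1) (P.unit _ hxN'.1) h5 with h6 | h6
  · exact h6
  · rw [h6, dt_neg_right] at hD'
    linarith

theorem perp2 {a w p q e : E} (hp : InP a w p) (hq : InP a w q) (h1 : ⟪p, e⟫ = 0) (h2 : ⟪q, e⟫ = 0)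
    (h3 : ⟪a, e⟫ ≠ 0) : dt a w p q = 0 := by
  have hp' : p = ⟪p, a⟫ • a + ⟪p, w⟫ • w := hp
  have hq' : q = ⟪q, a⟫ • a + ⟪q, w⟫ • w := hq
  have e1 : ⟪p, a⟫ * ⟪a, e⟫ + ⟪p, w⟫ * ⟪w, e⟫ = 0 := by
    have h4 := congrArg (fun x => ⟪x, e⟫) hp'
    simp only [inner_add_left, real_inner_smul_left] at h4
    linarith
  have e2 : ⟪q, a⟫ * ⟪a, e⟫ + ⟪q, w⟫ * ⟪w, e⟫ = 0 := by
    have h4 := congrArg (fun x => ⟪x, e⟫) hq'
    simp only [inner_add_left, real_inner_smul_left] at h4
    linarith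
  have e3 : dt a w p q * ⟪a, e⟫ = 0 := by
    unfold dt
    have : (⟪p, a⟫ * ⟪q, w⟫ - ⟪p, w⟫ * ⟪q, a⟫) * ⟪a, e⟫ =
      ⟪q, w⟫ * (⟪p, a⟫ * ⟪a, e⟫) - ⟪p, w⟫ * (⟪q, a⟫ * ⟪a, e⟫) := by ring
    rw [this]
    have f1 : ⟪p, a⟫ * ⟪a, e⟫ = -(⟪p, w⟫ * ⟪w, e⟫) := by linarith
    have f2 : ⟪q, a⟫ * ⟪a, e⟫ = -(⟪q, w⟫ * ⟪w, e⟫) := by linarith
    rw [f1, f2]
    ring
  exact (mul_eq_zero.1 e3).resolve_right h3

/-- a ridge point with active set `{x, y}` and the property `Cg` -/
def Fg (P : HPoly E) (Cg : E → Prop) (x y : E) : Prop :=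
  x ≠ y ∧ ∃ z ∈ P.body, P.act z = {x, y} ∧ Cg z

theorem Fg.symm {Cg : E → Prop} {x y : E} (h : Fg P Cg x y) : Fg P Cg y x := by
  obtain ⟨hne, z, hz, h1, h2⟩ := h
  exact ⟨hne.symm, z, hz, by rw [h1, pair_comm], h2⟩

/-- closed belt with four or six facets -/
def Blt (P : HPoly E) (Cg : E → Prop) (a : E) : Prop :=
  (∃ b, Fg P Cg a b ∧ Fg P Cg b (-a) ∧ Fg P Cg (-a) (-b) ∧ Fg P Cg (-b) a) ∨
  ∃ b c, Fg P Cg a b ∧ Fg P Cg b c ∧ Fg P Cg c (-a) ∧ Fg P Cg (-a) (-b) ∧ Fg P Cg (-b) (-c) ∧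
    Fg P Cg (-c) a

/-- the configuration at the four ridges of the facets `a` and `-a` -/
structure Cf (P : HPoly E) (Cg : E → Prop) (a w q u r v t y1 y2 : E) : Prop where
  orn : Orn a w
  cl : ∀ {e : ℝ} {c x x' z : E}, Mv P e c x x' → z ∈ P.fc x → Cg z → Cg (e • z + c)
  aN : a ∈ P.N
  aN' : -a ∈ P.N
  iq : InP a w q
  iu : InP a w u
  ir : InP a w r
  iv : InP a w v
  b1 : y1 ∈ P.body
  b2 : y2 ∈ P.body
  b3 : y1 + t ∈ P.body
  b4 : y2 + t ∈ P.body
  c1 : Cg y1
  c2 : Cg y2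
  c3 : Cg (y1 + t)
  c4 : Cg (y2 + t)
  a1 : P.act y1 = {a, u}
  a2 : P.act y2 = {a, q}
  a3 : P.act (y1 + t) = {-a, v}
  a4 : P.act (y2 + t) = {-a, r}
  sq : 0 < ⟪q, w⟫
  sr : 0 < ⟪r, w⟫
  su : ⟪u, w⟫ < 0
  sv : ⟪v, w⟫ < 0

variable {Cg : E → Prop} {a w q u r v t y1 y2 : E}

theorem Cf.uN (C : Cf P Cg a w q u r v t y1 y2) : u ∈ P.N ∧ ⟪u, y1⟫ = P.h u := by
  have : u ∈ P.act y1 := by rw [C.a1]; exact mem_insert_of_mem _ (mem_singleton _)
  exact this

theorem Cf.qN (C : Cf P Cg a w q u r v t y1 y2) : q ∈ P.N ∧ ⟪q, y2⟫ = P.h q := by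
  have : q ∈ P.act y2 := by rw [C.a2]; exact mem_insert_of_mem _ (mem_singleton _)
  exact this

theorem Cf.vN (C : Cf P Cg a w q u r v t y1 y2) : v ∈ P.N ∧ ⟪v, y1 + t⟫ = P.h v := by
  have : v ∈ P.act (y1 + t) := by rw [C.a3]; exact mem_insert_of_mem _ (mem_singleton _)
  exact this

theorem Cf.rN (C : Cf P Cg a w q u r v t y1 y2) : r ∈ P.N ∧ ⟪r, y2 + t⟫ = P.h r := by
  have : r ∈ P.act (y2 + t) := by rw [C.a4]; exact mem_insert_of_mem _ (mem_singleton _)
  exact this

theorem Cf.swap (C : Cf P Cg a w q u r v t y1 y2) : Cf P Cg a (-w) u q v r t y2 y1 := by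
  have hi : ∀ {x : E}, InP a w x → InP a (-w) x := by
    intro x hx
    unfold InP at *
    rw [inner_neg_right, neg_smul_neg]
    exact hx
  refine ⟨C.orn.neg, C.cl, C.aN, C.aN', hi C.iu, hi C.iq, hi C.iv, hi C.ir, C.b2, C.b1, C.b4, C.b3,
    C.c2, C.c1, C.c4, C.c3, C.a2, C.a1, C.a4, C.a3, ?_, ?_, ?_, ?_⟩
  · rw [inner_neg_right]; linarith [C.su]
  · rw [inner_neg_right]; linarith [C.sv]
  · rw [inner_neg_right]; linarith [C.sq]
  · rw [inner_neg_right]; linarith [C.sr]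

theorem Cf.at_neg (C : Cf P Cg a w q u r v t y1 y2) : ⟪a, t⟫ < 0 := by
  obtain ⟨z0, h0⟩ := P.int
  have h1 := h0 a C.aN
  have h2 := h0 (-a) C.aN'
  have h3 : a ∈ P.act y1 := by rw [C.a1]; exact mem_insert _ _
  have h4 : -a ∈ P.act (y1 + t) := by rw [C.a3]; exact mem_insert _ _
  have h5 := h3.2
  have h6 := h4.2
  rw [inner_neg_left, inner_add_right] at h6
  rw [inner_neg_left] at h2
  linarith

theorem Cf.ut (C : Cf P Cg a w q u r v t y1 y2) : ⟪u, t⟫ ≤ 0 ∧ (⟪u, t⟫ = 0 → u = v) := by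
  have h1 := C.b3 u C.uN.1
  rw [inner_add_right, C.uN.2] at h1
  refine ⟨by linarith, fun h0 => ?_⟩
  have h2 : u ∈ P.act (y1 + t) := ⟨C.uN.1, by rw [inner_add_right, C.uN.2, h0, add_zero]⟩
  rw [C.a3] at h2
  rcases h2 with h2 | h2
  · have h3 := C.su
    rw [h2, inner_neg_left, C.orn.aw] at h3
    norm_num at h3
  · exact h2

theorem Cf.ut' (C : Cf P Cg a w q u r v t y1 y2) (h : u = v) : ⟪u, t⟫ = 0 := by
  have h1 := C.vN.2
  rw [← h, inner_add_right, C.uN.2] at h1
  linarith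

theorem Cf.rt (C : Cf P Cg a w q u r v t y1 y2) : ⟪r, t⟫ = 0 → q = r := by
  intro h0
  have h1 := C.rN.2
  rw [inner_add_right, h0, add_zero] at h1
  have h2 : r ∈ P.act y2 := ⟨C.rN.1, h1⟩
  rw [C.a2] at h2
  rcases h2 with h2 | h2
  · have h3 := C.sr
    rw [h2, C.orn.aw] at h3
    exact absurd h3 (lt_irrefl _)
  · exact h2.symm

theorem Cf.q_ne_u (C : Cf P Cg a w q u r v t y1 y2) : q ≠ u := by
  rintro rfl
  linarith [C.sq, C.su]

theorem Cf.D_au (C : Cf P Cg a w q u r v t y1 y2) : dt a w a u < 0 := by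
  rw [dt_a C.orn]; exact C.su

theorem Cf.D_aq (C : Cf P Cg a w q u r v t y1 y2) : 0 < dt a w a q := by
  rw [dt_a C.orn]; exact C.sq

theorem Cf.D_ar (C : Cf P Cg a w q u r v t y1 y2) : 0 < dt a w a r := by
  rw [dt_a C.orn]; exact C.sr

theorem Cf.D_av (C : Cf P Cg a w q u r v t y1 y2) : dt a w a v < 0 := by
  rw [dt_a C.orn]; exact C.sv

theorem Cf.a_ne_u (C : Cf P Cg a w q u r v t y1 y2) : a ≠ u := by
  intro h
  have := C.su
  rw [← h, C.orn.aw] at this
  exact lt_irrefl _ this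

theorem Cf.a_ne_q (C : Cf P Cg a w q u r v t y1 y2) : a ≠ q := C.swap.a_ne_u

/-- the parallelogram -/
theorem Cf.par (C : Cf P Cg a w q u r v t y1 y2) (h : u = -q) : Blt P Cg a := by
  have h1 := C.ut.1
  have h2 := C.swap.ut.1
  have h3 : ⟪u, t⟫ = -⟪q, t⟫ := by rw [h, inner_neg_left]
  have h4 : ⟪u, t⟫ = 0 := by linarith
  have h5 : ⟪q, t⟫ = 0 := by linarith
  have h6 := C.ut.2 h4
  have h7 := C.swap.ut.2 h5
  left
  have k1 : a ≠ -q := by rw [← h]; exact C.a_ne_u
  have k2 : q ≠ -a := fun h0 => k1 (by rw [h0, neg_neg])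
  refine ⟨q, ⟨C.a_ne_q, y2, C.b2, C.a2, C.c2⟩, ⟨k2, y2 + t, C.b4, ?_, C.c4⟩,
    ⟨fun h0 => C.a_ne_q (neg_injective h0), y1 + t, C.b3, ?_, C.c3⟩, ⟨k1.symm, y1, C.b1, ?_, C.c1⟩⟩
  · rw [C.a4, ← h7, pair_comm]
  · rw [C.a3, ← h6, h]
  · rw [C.a1, h, pair_comm]

theorem Cf.par' (C : Cf P Cg a w q u r v t y1 y2) (h : q = r) (h' : u = v) : Blt P Cg a := by
  have h1 := C.ut' h'
  have h2 := C.swap.ut' h
  have h3 := perp2 C.iq C.iu h2 h1 C.at_neg.ne
  rcases dt_zero C.orn C.iq C.iu (P.unit _ C.qN.1) (P.unit _ C.uN.1) h3 with h4 | h4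
  · exact absurd h4.symm C.q_ne_u
  · exact C.par h4

/-- order on the side of `q`: a normal `n` there is `q` or after `q` -/
theorem Cf.after_q (C : Cf P Cg a w q u r v t y1 y2) {n : E} (hn : n ∈ P.N) (hi : InP a w n)
    (hs : 0 < ⟪n, w⟫) : n = q ∨ 0 < dt a w q n := by
  have h1 := ord_in C.b2 C.a_ne_q C.a2 C.orn.inp_a C.iq hi hn C.D_aq
  have h2 : dt a w n q ≤ 0 := by
    by_contra hc
    exact h1 ⟨by rw [dt_a C.orn]; exact hs, not_le.1 hc⟩
  rcases h2.lt_or_eq with h3 | h3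
  · right
    rw [dt_swap]
    linarith
  · left
    rcases dt_zero C.orn hi C.iq (P.unit _ hn) (P.unit _ C.qN.1) h3 with h4 | h4
    · exact h4.symm
    · have := C.sq
      rw [h4, inner_neg_left] at this
      linarith

/-- order on the side of `u`: a normal `n` there is `u` or before `u` -/
theorem Cf.before_u (C : Cf P Cg a w q u r v t y1 y2) {n : E} (hn : n ∈ P.N) (hi : InP a w n)
    (hs : ⟪n, w⟫ < 0) : n = u ∨ 0 < dt a w n u := by
  have hD : ∀ x y, dt a (-w) x y = -dt a w x y := by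
    intro x y
    unfold dt
    rw [inner_neg_right, inner_neg_right]
    ring
  have hi' : InP a (-w) n := by
    unfold InP at *
    rw [inner_neg_right, neg_smul_neg]
    exact hi
  rcases C.swap.after_q hn hi' (by rw [inner_neg_right]; linarith) with h | h
  · exact Or.inl h
  · right
    rw [hD] at h
    rw [dt_swap]
    exact h

/-- order on the side of `v`: a normal `n` there is `v` or after `v` -/
theorem Cf.after_v (C : Cf P Cg a w q u r v t y1 y2) {n : E} (hn : n ∈ P.N) (hi : InP a w n)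
    (hs : ⟪n, w⟫ < 0) : n = v ∨ 0 < dt a w v n := by
  have hne : -a ≠ v := by
    intro h
    have := C.sv
    rw [← h, inner_neg_left, C.orn.aw] at this
    norm_num at this
  have hD1 : 0 < dt a w (-a) v := by rw [dt_neg_left]; linarith [C.D_av]
  have h1 := ord_in C.b3 hne C.a3 C.orn.inp_a.neg C.iv hi hn hD1
  have h2 : dt a w n v ≤ 0 := by
    by_contra hc
    exact h1 ⟨by rw [dt_neg_left, dt_a C.orn]; linarith, not_le.1 hc⟩
  rcases h2.lt_or_eq with h3 | h3
  · right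
    rw [dt_swap]
    linarith
  · left
    rcases dt_zero C.orn hi C.iv (P.unit _ hn) (P.unit _ C.vN.1) h3 with h4 | h4
    · exact h4.symm
    · have := C.sv
      rw [h4, inner_neg_left] at this
      linarith

theorem act_left {z x y : E} (h : P.act z = {x, y}) : x ∈ P.act z := by
  rw [h]; exact mem_insert _ _

theorem act_right {z x y : E} (h : P.act z = {x, y}) : y ∈ P.act z := by
  rw [h]; exact mem_insert_of_mem _ (mem_singleton _)

/-- CASE: flag `(q, -u)`, and the facet `u` is a translate of the facet `-u` -/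
theorem Cf.main (C : Cf P Cg a w q u r v t y1 y2)
    (T1 : u = v ∨ Fg P Cg u v ∨ Fg P Cg (-u) (-v))
    (T2 : q = r ∨ Fg P Cg q r ∨ Fg P Cg (-q) (-r))
    (I3 : Fg P Cg q (-u)) (hTra : Tra P u) : Blt P Cg a := by
  by_cases hqu : u = -q
  · exact C.par hqu
  obtain ⟨ne1, z1, hz1, az1, cz1⟩ := I3
  obtain ⟨hmu, s, hs⟩ := hTra
  have hm : Mv P 1 s u (-u) := ⟨Or.inl rfl, C.uN.1, hmu, by rw [one_smul], by
    intro z
    rw [one_smul]
    exact hs z⟩
  have hmI : Mv P 1 (-s) (-u) u := ⟨Or.inl rfl, hmu, C.uN.1, by rw [one_smul, neg_neg], by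
    intro z
    rw [one_smul, hs, neg_add_cancel_right]⟩
  have inu := C.iu.neg
  have D_amu : 0 < dt a w a (-u) := by rw [dt_neg_right]; linarith [C.D_au]
  -- orientation of `z1`
  have D1 : 0 < dt a w q (-u) := by
    rcases C.after_q hmu inu (by rw [inner_neg_left]; linarith [C.su]) with h | h
    · exact absurd (by rw [← h, neg_neg]) hqu
    · exact h
  have hquD : 0 < dt a w u q := by
    rw [dt_neg_right] at D1
    rw [dt_swap]
    exact D1
  -- the ridge `y1 + s` of the facet `-u`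
  obtain ⟨w1, α, β, hw1, hne1, hα, hw1'⟩ := act_step hm C.b1 C.a_ne_u C.a1
  rw [one_smul] at hw1 hw1'
  have iw1 : InP a w w1 := by
    rw [hw1']
    exact C.orn.inp_a.comb C.iu α β
  have hz5 : y1 + s ∈ P.body := ((hs y1).1 ⟨C.b1, C.uN.2⟩).1
  have D2 : 0 < dt a w w1 (-u) := by
    rw [dt_neg_right, dt_swap, neg_neg, hw1', dt_comb, dt_self, mul_zero, add_zero, dt_swap]
    have := mul_neg_of_pos_of_neg hα C.D_au
    linarith
  have hw1q : w1 = q := by
    refine same_end C.orn hz1 hz5 az1 (by rw [hw1, pair_comm]) C.iq iw1 inu D1 D2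
  rw [hw1q] at hw1
  have hqe : ⟪q, y1 + s - y2⟫ = 0 := by
    have h1 : q ∈ P.act (y1 + s) := act_right hw1
    rw [inner_sub_right, h1.2, C.qN.2, sub_self]
  have hae : ⟪a, y1 + s - y2⟫ ≠ 0 := by
    intro h0
    have h1 : a ∈ P.act y2 := act_left C.a2
    rw [inner_sub_right, h1.2] at h0
    have h2 : a ∈ P.act (y1 + s) := ⟨C.aN, by linarith⟩
    rw [hw1] at h2
    rcases h2 with h2 | h2
    · have h3 := C.su
      have h4 : ⟪-u, w⟫ = ⟪a, w⟫ := by rw [← h2]
      rw [inner_neg_left, C.orn.aw] at h4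
      linarith
    · exact C.a_ne_q h2
  -- case `q = r`
  by_cases hqr : q = r
  · have h1 : -a = -u := by
      refine same_start C.orn hz1 C.b4 az1 (by rw [C.a4, ← hqr, pair_comm]) inu C.orn.inp_a.neg
        C.iq D1 ?_
      rw [dt_neg_right, dt_swap, neg_neg]
      exact C.D_aq
    exact absurd (neg_injective h1) C.a_ne_u
  have Dqr : 0 < dt a w q r := by
    rcases C.after_q C.rN.1 C.ir C.sr with h | h
    · exact absurd h.symm hqr
    · exact h
  -- case `u = v`
  by_cases huv : u = v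
  · rcases T2 with h | ⟨-, z2, hz2, az2, -⟩ | ⟨-, z2, hz2, az2, -⟩
    · exact absurd h hqr
    · have h1 : r = -u := same_start C.orn hz1 hz2 az1 az2 inu C.ir C.iq D1 Dqr
      have h2 := C.ut' huv
      exact absurd (C.rt (by rw [h1, inner_neg_left, h2, neg_zero])) hqr
    · have hN : -q ∈ P.N := (act_left az2).1
      have hsn : ⟪-q, w⟫ < 0 := by rw [inner_neg_left]; linarith [C.sq]
      rcases C.before_u hN C.iq.neg hsn with h | h
      · exact absurd h.symm hqu
      · rcases C.after_v hN C.iq.neg hsn with h' | h'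
        · rw [← huv] at h'
          exact absurd h'.symm hqu
        · rw [← huv, dt_swap] at h'
          linarith
  have hvu : 0 < dt a w v u := by
    rcases C.before_u C.vN.1 C.iv C.sv with h | h
    · exact absurd h.symm huv
    · exact h
  have huv' : v ≠ u := fun h => huv h.symm
  -- `v = -q` from a flag `(-v, -u)`
  have hneg : Fg P Cg (-u) (-v) → v = -q := by
    rintro ⟨-, z2, hz2, az2, -⟩
    have h1 : -v = q := by
      refine same_end C.orn hz1 hz2 az1 (by rw [az2, pair_comm]) C.iq C.iv.neg inu D1 ?_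
      rw [dt_neg_left, dt_neg_right, neg_neg]
      exact hvu
    rw [← h1, neg_neg]
  by_cases hru : r = -u
  · -- the hexagon
    have a4' : P.act (y2 + t) = {-a, -u} := by rw [C.a4, hru]
    have hfin : v = -q → Fg P Cg u v → Blt P Cg a := by
      intro h1 h2
      right
      refine ⟨q, -u, ⟨C.a_ne_q, y2, C.b2, C.a2, C.c2⟩, ⟨ne1, z1, hz1, az1, cz1⟩,
        ⟨fun h0 => C.a_ne_u (neg_injective h0).symm, y2 + t, C.b4, by rw [a4', pair_comm], C.c4⟩,
        ⟨fun h0 => C.a_ne_q (neg_injective h0), y1 + t, C.b3, by rw [C.a3, h1], C.c3⟩, ?_, ?_⟩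
      · rw [neg_neg, ← h1]
        exact h2.symm
      · rw [neg_neg]
        exact ⟨C.a_ne_u.symm, y1, C.b1, by rw [C.a1, pair_comm], C.c1⟩
    rcases T1 with h | h | h
    · exact absurd h huv
    · obtain ⟨-, z3, hz3, az3, cz3⟩ := h
      obtain ⟨w3, α', β', hw3, hne3, hα', hw3'⟩ := act_step hm hz3 huv' (by rw [az3, pair_comm])
      rw [one_smul] at hw3 hw3'
      have iw3 : InP a w w3 := by
        rw [hw3']
        exact C.iv.comb C.iu α' β'
      have hz6 : z3 + s ∈ P.body := ((hs z3).1 ⟨hz3, (act_left az3).2⟩).1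
      have D3 : 0 < dt a w (-u) w3 := by
        rw [dt_neg_left, hw3', dt_comb, dt_self, mul_zero, add_zero, dt_swap]
        have := mul_pos hα' hvu
        linarith
      have hw3a : w3 = -a := by
        refine same_start C.orn C.b4 hz6 (by rw [a4', pair_comm]) hw3 C.orn.inp_a.neg iw3 inu ?_ D3
        rw [dt_neg_left, dt_neg_right, neg_neg, dt_swap]
        linarith [C.D_au]
      rw [hw3a] at hw3
      -- `z3 + s` and `y2 + t` have the same inner products with `a` and `u`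
      have f1 : ⟪a, z3 + s - (y2 + t)⟫ = 0 := by
        have g1 := (act_right hw3).2
        have g2 := (act_left a4').2
        rw [inner_neg_left] at g1 g2
        rw [inner_sub_right]
        linarith
      have f2 : ⟪u, z3 + s - (y2 + t)⟫ = 0 := by
        have g1 := (act_left hw3).2
        have g2 := (act_right a4').2
        rw [inner_neg_left] at g1 g2
        rw [inner_sub_right]
        linarith
      have f3 : ⟪v, z3 + s - (y2 + t)⟫ = 0 := by
        have h4 := dt_id C.orn.inp_a C.iu C.iv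
        have h5 := congrArg (fun x => ⟪x, z3 + s - (y2 + t)⟫) h4
        simp only [inner_add_left, real_inner_smul_left, f1, f2, mul_zero, add_zero] at h5
        rcases mul_eq_zero.1 h5 with h6 | h6
        · exact absurd h6 C.D_au.ne
        · exact h6
      have hve : ⟪v, y1 + s - y2⟫ = 0 := by
        have g1 := (act_right az3).2
        have g2 := C.vN.2
        rw [inner_sub_right, inner_add_right, inner_add_right] at f3
        rw [inner_add_right] at g2
        rw [inner_sub_right, inner_add_right]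
        linarith
      have h7 := perp2 C.iq C.iv hqe hve hae
      have hvq : v = -q := by
        rcases dt_zero C.orn C.iq C.iv (P.unit _ C.qN.1) (P.unit _ C.vN.1) h7 with h8 | h8
        · have := C.sv
          rw [h8] at this
          linarith [C.sq]
        · exact h8
      exact hfin hvq ⟨huv, z3, hz3, az3, cz3⟩
    · have hvq := hneg h
      have hna : -a ≠ -u := fun h0 => C.a_ne_u (neg_injective h0)
      obtain ⟨w4, α', β', hw4, hne4, -, -⟩ := act_step hmI C.b4 hna a4'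
      rw [one_smul] at hw4
      have hz7f : y2 + t + -s ∈ P.fc u := by
        have := (hmI.iff (y2 + t)).1 ⟨C.b4, (act_right a4').2⟩
        rwa [one_smul] at this
      have hv7 : v ∈ P.act (y2 + t + -s) := by
        refine ⟨C.vN.1, ?_⟩
        have g1 : ⟪v, y1 + s - y2⟫ = 0 := by rw [hvq, inner_neg_left, hqe, neg_zero]
        have g2 := C.vN.2
        rw [inner_sub_right, inner_add_right] at g1
        rw [inner_add_right] at g2
        rw [inner_add_right, inner_add_right, inner_neg_right]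
        linarith
      rw [hw4] at hv7
      have hw4v : w4 = v := by
        rcases hv7 with h0 | h0
        · exact absurd h0 huv'
        · exact (mem_singleton_iff.1 h0).symm
      refine hfin hvq ⟨huv, y2 + t + -s, hz7f.1, by rw [hw4, hw4v], ?_⟩
      have := C.cl hmI ⟨C.b4, (act_right a4').2⟩ C.c4
      rwa [one_smul] at this
  · -- contradiction
    exfalso
    rcases T2 with h | ⟨-, z2, hz2, az2, -⟩ | ⟨-, z2, hz2, az2, -⟩
    · exact hqr h
    · exact hru (same_start C.orn hz1 hz2 az1 az2 inu C.ir C.iq D1 Dqr)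
    · have hN : -q ∈ P.N := (act_left az2).1
      have hN' : -r ∈ P.N := (act_right az2).1
      have hsn : ⟪-q, w⟫ < 0 := by rw [inner_neg_left]; linarith [C.sq]
      have hvq : v = -q := by
        rcases T1 with h | ⟨-, z3, hz3, az3, -⟩ | h
        · exact absurd h huv
        · rcases C.after_v hN C.iq.neg hsn with h' | h'
          · exact h'.symm
          · exfalso
            have h3 := ord_in hz3 huv' (by rw [az3, pair_comm]) C.iv C.iu C.iq.neg hN hvu
            rcases C.before_u hN C.iq.neg hsn with h4 | h4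
            · exact hqu h4.symm
            · exact h3 ⟨h', h4⟩
        · exact hneg h
      -- `(v, -r)` is a flag
      have Dvr : 0 < dt a w v (-r) := by
        rw [hvq, dt_neg_left, dt_neg_right, neg_neg]
        exact Dqr
      have hvr : v ≠ -r := by
        rintro h0
        rw [h0, dt_self] at Dvr
        exact lt_irrefl _ Dvr
      have h3 := ord_in hz2 hvr (by rw [az2, hvq]) C.iv C.ir.neg C.iu C.uN.1 Dvr
      have h4 : dt a w u (-r) ≤ 0 := by
        by_contra hc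
        exact h3 ⟨hvu, not_le.1 hc⟩
      have hqmu : q ≠ -u := by
        rintro h0
        rw [h0, dt_self] at D1
        exact lt_irrefl _ D1
      have h5 := ord_in hz1 hqmu az1 C.iq inu C.ir C.rN.1 D1
      have h6 : dt a w r (-u) ≤ 0 := by
        by_contra hc
        exact h5 ⟨Dqr, not_le.1 hc⟩
      rw [dt_neg_right] at h4 h6
      have h7 : dt a w u r = 0 := by
        have := dt_swap a w u r
        linarith
      rcases dt_zero C.orn C.iu C.ir (P.unit _ C.uN.1) (P.unit _ C.rN.1) h7 with h8 | h8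
      · have := C.sr
        rw [h8] at this
        linarith [C.su]
      · exact hru h8

/-- ALL CASES -/
theorem Cf.belt (C : Cf P Cg a w q u r v t y1 y2)
    (T1 : u = v ∨ Fg P Cg u v ∨ Fg P Cg (-u) (-v))
    (T2 : q = r ∨ Fg P Cg q r ∨ Fg P Cg (-q) (-r))
    (I : u = -q ∨ (Fg P Cg q (-u) ∧ Tra P u) ∨ (Fg P Cg (-q) u ∧ Tra P q) ∨ (q = r ∧ u = v)) :
    Blt P Cg a := by
  rcases I with h | ⟨h, h'⟩ | ⟨h, h'⟩ | ⟨h, h'⟩
  · exact C.par h
  · exact C.main T1 T2 h h'
  · exact C.swap.main T2 T1 h.symm h'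
  · exact C.par' h h'

end Pool.FF56
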