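import Pool.Agent.FF56.Belt
import Pool.Agent.CC95.Pat

set_option autoImplicit false

/-!
# FF56/BeltDat: from the patterns at the four ridges to the belt

`belt_of_dat`: the patterns `pat_T`, `pat_T` for the exchanged data and `pat_I` of `CC95/Pat` give a symmetric belt of
four or six facets.
-/

open Set Metric
open scoped RealInnerProductSpace

namespace Pool.FF56

open Pool.FF24 Pool.FF25 Pool.FF57 Pool.CC95

variable {E : Type*} [NormedAddCommGroup E] [InnerProductSpace ℝ E] {P : HPoly E}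

theorem cong_refl (P : HPoly E) (y : E) : Cong P y y := by
  refine ⟨0, Or.inl ?_⟩
  simp

theorem cong_of_mv {e : ℝ} {c v v' y : E} (hm : Mv P e c v v') (hy : y ∈ P.fc v) :
    Cong P y (e • y + c) := by
  refine ⟨c, ?_⟩
  rw [← mf_step hm hy]
  rcases hm.sgn with h | h
  · left
    rw [h]
    simp only [one_smul]
  · right
    rw [h]
    refine Set.image_congr fun z _ => ?_
    module

theorem cong_trans {y y' y'' : E} (h : Cong P y y') (h' : Cong P y' y'') : Cong P y y'' := by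
  obtain ⟨c, hc⟩ := h
  obtain ⟨c', hc'⟩ := h'
  rcases hc with hc | hc <;> rcases hc' with hc' | hc'
  · refine ⟨c + c', Or.inl ?_⟩
    rw [hc', hc, Set.image_image]
    refine Set.image_congr fun z _ => ?_
    module
  · refine ⟨c' - c, Or.inr ?_⟩
    rw [hc', hc, Set.image_image]
    refine Set.image_congr fun z _ => ?_
    module
  · refine ⟨c + c', Or.inr ?_⟩
    rw [hc', hc, Set.image_image]
    refine Set.image_congr fun z _ => ?_
    module
  · refine ⟨c' - c, Or.inl ?_⟩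
    rw [hc', hc, Set.image_image]
    refine Set.image_congr fun z _ => ?_
    module

theorem inp_of {a w x : E} (h : Orn a w) {A B : ℝ} (hx : x = A • a + B • w) :
    InP a w x ∧ ⟪x, w⟫ = B := by
  have h1 : ⟪x, a⟫ = A := by
    rw [hx, inner_add_left, real_inner_smul_left, real_inner_smul_left, h.aa, real_inner_comm a w, h.aw]
    ring
  have h2 : ⟪x, w⟫ = B := by
    rw [hx, inner_add_left, real_inner_smul_left, real_inner_smul_left, h.ww, h.aw]
    ring
  refine ⟨?_, h2⟩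
  unfold InP
  rw [h1, h2]
  exact hx

/-- TARGET: the belt from the patterns -/
theorem belt_of_dat {a c ca y r r' l l' : E} (D : CC95.Dat P a c ca y r r' l l')
    (hR : r = r' ∨ (∃ z ∈ P.body, P.act z = {r, r'} ∧ Csym P r ∧ Csym P r' ∧ Cong P y z) ∨
      ∃ z ∈ P.body, P.act z = {-r, -r'} ∧ Tra P r ∧ Tra P r' ∧ Cong P y z)
    (hL : l' = l ∨ (∃ z ∈ P.body, P.act z = {l', l} ∧ Csym P l' ∧ Csym P l ∧ Cong P (ca - y) z) ∨
      ∃ z ∈ P.body, P.act z = {-l', -l} ∧ Tra P l' ∧ Tra P l ∧ Cong P (ca - y) z)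
    (hI : l' = -r ∨ (∃ z ∈ P.body, P.act z = {r, -l'} ∧ Csym P r ∧ Tra P l' ∧ Cong P y z) ∨
      (∃ z ∈ P.body, P.act z = {-r, l'} ∧ Tra P r ∧ Csym P l' ∧ Cong P y z) ∨
        (r = r' ∧ l = l')) :
    Belt P a y := by
  obtain ⟨w', haw, hw, ⟨A, hr⟩, ⟨A', W', hW', hr'⟩, ⟨B, V, hV, hl'⟩, ⟨B', V', hV', hl⟩, -, -, -⟩ := D.coord
  have hn : 0 < ‖w'‖ := norm_pos_iff.2 hw
  set w : E := ‖w'‖⁻¹ • w' with hwdef
  have hww' : w' = ‖w'‖ • w := by
    rw [hwdef, smul_smul, mul_inv_cancel₀ hn.ne', one_smul]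
  have ho : Orn a w := by
    refine ⟨?_, ?_, ?_⟩
    · rw [real_inner_self_eq_norm_sq, P.unit a D.ha]; norm_num
    · rw [real_inner_self_eq_norm_sq, hwdef, norm_smul, norm_inv, norm_norm, inv_mul_cancel₀ hn.ne']
      norm_num
    · rw [hwdef, real_inner_smul_right, haw, mul_zero]
  have hN : ∀ {x : E} {s S : ℝ}, x = s • a + S • w' → InP a w x ∧ ⟪x, w⟫ = S * ‖w'‖ := by
    intro x s S hx
    refine inp_of ho (A := s) ?_
    rw [hx]
    nth_rewrite 1 [hww']
    rw [smul_smul]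
  obtain ⟨i1, s1⟩ := hN hr
  obtain ⟨i2, s2⟩ := hN hr'
  obtain ⟨i3, s3⟩ := hN hl'
  obtain ⟨i4, s4⟩ := hN hl
  have hyT := (D.hc y).1 D.yfc
  have hy'T := (D.hc (ca - y)).1 D.y'fc
  have cI : Cong P y (ca - y) := by
    have h1 := cong_of_mv D.mvI D.yfc
    have e : (-1 : ℝ) • y + ca = ca - y := by module
    rwa [e] at h1
  have cT : Cong P y (y + c) := by
    have h1 := cong_of_mv D.mvT D.yfc
    rwa [one_smul] at h1
  have cIT : Cong P y (ca - y + c) := by
    have h1 := cong_of_mv D.mvT D.y'fc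
    rw [one_smul] at h1
    exact cong_trans cI h1
  have C : Cf P (Cong P y) a w r l' r' l c (ca - y) y := by
    refine ⟨ho, ?_, D.ha, D.ha', i1, i3, i2, i4, D.y'fc.1, D.hy, hy'T.1, hyT.1, cI, cong_refl P y, cIT,
      cT, D.hl', D.hr, D.hl, D.hr', ?_, ?_, ?_, ?_⟩
    · intro e c x x' z hm hz hc
      exact cong_trans hc (cong_of_mv hm hz)
    · rw [s1, one_mul]; exact hn
    · rw [s2]; exact mul_pos hW' hn
    · rw [s3]; exact mul_neg_of_neg_of_pos hV hn
    · rw [s4]; exact mul_neg_of_neg_of_pos hV' hn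
  have T1 : l' = l ∨ Fg P (Cong P y) l' l ∨ Fg P (Cong P y) (-l') (-l) := by
    by_cases hne : l' = l
    · exact Or.inl hne
    · rcases hL with h | ⟨z, hz, h1, -, -, h2⟩ | ⟨z, hz, h1, -, -, h2⟩
      · exact Or.inl h
      · exact Or.inr (Or.inl ⟨hne, z, hz, h1, cong_trans cI h2⟩)
      · exact Or.inr (Or.inr ⟨fun h0 => hne (neg_injective h0), z, hz, h1, cong_trans cI h2⟩)
  have T2 : r = r' ∨ Fg P (Cong P y) r r' ∨ Fg P (Cong P y) (-r) (-r') := by
    by_cases hne : r = r'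
    · exact Or.inl hne
    · rcases hR with h | ⟨z, hz, h1, -, -, h2⟩ | ⟨z, hz, h1, -, -, h2⟩
      · exact Or.inl h
      · exact Or.inr (Or.inl ⟨hne, z, hz, h1, h2⟩)
      · exact Or.inr (Or.inr ⟨fun h0 => hne (neg_injective h0), z, hz, h1, h2⟩)
  have I : l' = -r ∨ (Fg P (Cong P y) r (-l') ∧ Tra P l') ∨ (Fg P (Cong P y) (-r) l' ∧ Tra P r) ∨
      (r = r' ∧ l' = l) := by
    by_cases hne : l' = -r
    · exact Or.inl hne
    · rcases hI with h | ⟨z, hz, h1, -, h3, h2⟩ | ⟨z, hz, h1, h3, -, h2⟩ | ⟨h1, h2⟩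
      · exact Or.inl h
      · exact Or.inr (Or.inl ⟨⟨fun h0 => hne (by rw [h0, neg_neg]), z, hz, h1, h2⟩, h3⟩)
      · exact Or.inr (Or.inr (Or.inl ⟨⟨fun h0 => hne h0.symm, z, hz, h1, h2⟩, h3⟩))
      · exact Or.inr (Or.inr (Or.inr ⟨h1, h2.symm⟩))
  exact C.belt T1 T2 I

end Pool.FF56
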