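import Mathlib

set_option autoImplicit false

/-!
# FF56/PL4: an odd piecewise linear function on the chambers of four planes in general position is linear
-/

open Set Filter Topology Metric Finset
open scoped RealInnerProductSpace

namespace Pool.FF56

variable {E : Type*} [NormedAddCommGroup E] [InnerProductSpace ℝ E]

/-- `f` is affine near `w` with gradient `C` -/
def LocAff (f : E → ℝ) (w C : E) : Prop := ∀ᶠ v in 𝓝 (0 : E), f (w + v) = f w + ⟪C, v⟫

theorem LocAff.unique {f : E → ℝ} {w C C' : E} (h : LocAff f w C) (h' : LocAff f w C') : C = C' := by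
  have h1 : ∀ᶠ v in 𝓝 (0 : E), ⟪C - C', v⟫ = 0 := by
    filter_upwards [h, h'] with v e1 e2
    rw [inner_sub_left]
    linarith
  obtain ⟨r, hr, h2⟩ := Metric.eventually_nhds_iff.1 h1
  by_contra hne
  have hn : 0 < ‖C - C'‖ := norm_pos_iff.2 (sub_ne_zero.2 hne)
  have h3 := @h2 ((r / 2 / ‖C - C'‖) • (C - C')) (by
    rw [dist_zero_right, norm_smul, Real.norm_eq_abs, abs_of_pos (by positivity),
      div_mul_cancel₀ _ hn.ne']
    linarith)
  rw [real_inner_smul_right, real_inner_self_eq_norm_sq] at h3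
  have : 0 < r / 2 / ‖C - C'‖ * ‖C - C'‖ ^ 2 := by positivity
  linarith

/-- the gradient is locally constant -/
theorem LocAff.near {f : E → ℝ} {w C : E} (h : LocAff f w C) :
    ∀ᶠ v in 𝓝 (0 : E), LocAff f (w + v) C ∧ f (w + v) = f w + ⟪C, v⟫ := by
  obtain ⟨r, hr, h2⟩ := Metric.eventually_nhds_iff.1 h
  rw [Metric.eventually_nhds_iff]
  refine ⟨r / 2, by linarith, fun v hv => ⟨?_, h2 (by linarith)⟩⟩
  unfold LocAff
  rw [Metric.eventually_nhds_iff]
  refine ⟨r / 2, by linarith, fun u hu => ?_⟩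
  have e1 := @h2 v (by linarith)
  have e2 := @h2 (v + u) (by
    rw [dist_zero_right] at hv hu ⊢
    exact lt_of_le_of_lt (norm_add_le _ _) (by linarith))
  rw [add_assoc, e2, e1, inner_add_right]
  ring

/-- a predicate which is locally constant on a preconnected set is constant -/
theorem iff_of_loc' {I : Set ℝ} (hI : IsPreconnected I) (T : ℝ → Prop)
    (h : ∀ s₀ ∈ I, ∀ᶠ s in 𝓝[I] s₀, (T s ↔ T s₀)) {a b : ℝ} (ha : a ∈ I) (hb : b ∈ I) :
    T a ↔ T b := by
  refine hI.induction₂ (fun x y => (T x ↔ T y)) ?_ ?_ ?_ ha hb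
  · intro x hx
    exact (h x hx).mono fun y hy => hy.symm
  · intro x y z _ _ _ h1 h2
    exact h1.trans h2
  · intro x y _ _ h1
    exact h1.symm

/-- a function which is affine near every point of a convex set is affine on it -/
theorem affine_on {f : E → ℝ} {K : Set E} (hK : Convex ℝ K) (h : ∀ w ∈ K, ∃ C, LocAff f w C) {w C : E}
    (hw : w ∈ K) (hC : LocAff f w C) {w' : E} (hw' : w' ∈ K) : f w' = f w + ⟪C, w' - w⟫ := by
  have hmem : ∀ s ∈ Icc (0 : ℝ) 1, w + s • (w' - w) ∈ K := by
    intro s hs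
    have := hK.add_smul_sub_mem hw hw' hs
    exact this
  have hcont : ∀ s₀ : ℝ, Tendsto (fun s : ℝ => (s - s₀) • (w' - w)) (𝓝 s₀) (𝓝 0) := by
    intro s₀
    have : Continuous fun s : ℝ => (s - s₀) • (w' - w) := by fun_prop
    have h1 := this.tendsto s₀
    simpa using h1
  have h1 := iff_of_loc' (isPreconnected_Icc (a := (0 : ℝ)) (b := 1))
    (fun s => LocAff f (w + s • (w' - w)) C ∧ f (w + s • (w' - w)) = f w + s * ⟪C, w' - w⟫)
    (by
      intro s₀ hs₀
      obtain ⟨C', hC'⟩ := h _ (hmem s₀ hs₀)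
      have h2 := (hcont s₀).eventually hC'.near
      refine (h2.filter_mono nhdsWithin_le_nhds).mono fun s hs => ?_
      have e : w + s₀ • (w' - w) + (s - s₀) • (w' - w) = w + s • (w' - w) := by
        rw [sub_smul s]
        abel
      rw [e, real_inner_smul_right] at hs
      constructor
      · rintro ⟨h3, h4⟩
        have h5 : C = C' := h3.unique hs.1
        rw [h5]
        rw [h5] at h4
        refine ⟨hC', ?_⟩
        have := hs.2
        linarith
      · rintro ⟨h3, h4⟩
        have h5 : C = C' := h3.unique hC'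
        rw [h5]
        rw [h5] at h4
        refine ⟨hs.1, ?_⟩
        have := hs.2
        linarith)
    (show (0 : ℝ) ∈ Icc (0 : ℝ) 1 by norm_num) (show (1 : ℝ) ∈ Icc (0 : ℝ) 1 by norm_num)
  have h2 := h1.1 ⟨by simpa using hC, by simp⟩
  have h3 := h2.2
  rw [one_smul, one_mul, add_sub_cancel] at h3
  exact h3

/-- on the closed chambers `f` is linear -/
theorem chamber_linear {n : ℕ} {f : E → ℝ} (hcont : Continuous f) (hhom : ∀ w, f ((2 : ℝ) • w) = 2 * f w)
    (h : Fin n → E) (hloc : ∀ w, (∀ i, ⟪h i, w⟫ ≠ 0) → ∃ C, LocAff f w C) (σ : Fin n → ℝ)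
    {z : E} (hz : ∀ i, 0 < σ i * ⟪h i, z⟫) :
    ∃ C : E, ∀ w, (∀ i, 0 ≤ σ i * ⟪h i, w⟫) → f w = ⟪C, w⟫ := by
  set K : Set E := {w | ∀ i, 0 < σ i * ⟪h i, w⟫} with hKdef
  have hK : Convex ℝ K := by
    intro x hx y hy a b ha hb hab i
    have h1 := hx i
    have h2 := hy i
    show 0 < σ i * ⟪h i, a • x + b • y⟫
    rw [inner_add_right, real_inner_smul_right, real_inner_smul_right]
    have h3 : σ i * (a * ⟪h i, x⟫ + b * ⟪h i, y⟫) = a * (σ i * ⟪h i, x⟫) + b * (σ i * ⟪h i, y⟫) := by
      ring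
    rw [h3]
    rcases ha.lt_or_eq with h4 | h4
    · have := mul_pos h4 h1
      have := mul_nonneg hb h2.le
      linarith
    · have hb1 : b = 1 := by linarith
      rw [← h4, hb1]
      linarith
  have hne : ∀ w ∈ K, ∃ C, LocAff f w C := by
    intro w hw
    refine hloc w fun i h0 => ?_
    have := hw i
    rw [h0, mul_zero] at this
    exact lt_irrefl _ this
  obtain ⟨C, hC⟩ := hne z hz
  have haff : ∀ w ∈ K, f w = f z + ⟪C, w - z⟫ := fun w hw => affine_on hK hne hz hC hw
  have h2z : (2 : ℝ) • z ∈ K := by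
    intro i
    have := hz i
    show 0 < σ i * ⟪h i, (2 : ℝ) • z⟫
    rw [real_inner_smul_right]
    linarith
  have hfz : f z = ⟪C, z⟫ := by
    have h1 := haff _ h2z
    rw [hhom, two_smul, add_sub_cancel_right] at h1
    linarith
  have hlin : ∀ w ∈ K, f w = ⟪C, w⟫ := by
    intro w hw
    rw [haff w hw, hfz, inner_sub_right]
    ring
  refine ⟨C, fun w hw => ?_⟩
  have h1 : Tendsto (fun s : ℝ => w + s • z) (𝓝[>] 0) (𝓝 w) := by
    have : Continuous fun s : ℝ => w + s • z := by fun_prop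
    have h2 := this.tendsto 0
    rw [zero_smul, add_zero] at h2
    exact h2.mono_left nhdsWithin_le_nhds
  have h2 : Tendsto (fun s : ℝ => f (w + s • z)) (𝓝[>] 0) (𝓝 (f w)) := (hcont.tendsto w).comp h1
  have h3 : Tendsto (fun s : ℝ => ⟪C, w + s • z⟫) (𝓝[>] 0) (𝓝 ⟪C, w⟫) :=
    ((continuous_const.inner continuous_id).tendsto w).comp h1
  refine tendsto_nhds_unique_of_eventuallyEq h2 h3 ?_
  filter_upwards [self_mem_nhdsWithin] with s hs
  apply hlin
  intro i
  show 0 < σ i * ⟪h i, w + s • z⟫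
  rw [inner_add_right, real_inner_smul_right]
  have h4 := hw i
  have h5 := mul_pos hs (hz i)
  have : σ i * (⟪h i, w⟫ + s * ⟪h i, z⟫) = σ i * ⟪h i, w⟫ + s * (σ i * ⟪h i, z⟫) := by ring
  rw [this]
  linarith

/-- an odd function which is affine near every point off four planes in general position is linear -/
theorem pl4 [FiniteDimensional ℝ E] (h3 : Module.finrank ℝ E = 3) {f : E → ℝ}
    (hodd : ∀ w, f (-w) = -f w) (hcont : Continuous f) (hhom : ∀ w, f ((2 : ℝ) • w) = 2 * f w)
    (h : Fin 4 → E) (hind : ∀ i : Fin 4, LinearIndependent ℝ (fun j : Fin 3 => h (i.succAbove j)))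
    (hloc : ∀ w, (∀ i, ⟪h i, w⟫ ≠ 0) → ∃ C, LocAff f w C) : ∃ C : E, ∀ w, f w = ⟪C, w⟫ := by
  classical
  have hnot : ¬ LinearIndependent ℝ h := by
    intro hh
    have := hh.fintype_card_le_finrank
    rw [h3, Fintype.card_fin] at this
    omega
  rw [Fintype.not_linearIndependent_iff] at hnot
  obtain ⟨g, hg, i₀, hi₀⟩ := hnot
  have hg0 : ∀ i, g i ≠ 0 := by
    intro i hi
    rw [Fin.sum_univ_succAbove _ i, hi, zero_smul, zero_add] at hg
    have h1 := Fintype.linearIndependent_iff.1 (hind i) (fun j => g (i.succAbove j)) hg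
    rcases Fin.eq_self_or_eq_succAbove i i₀ with h2 | ⟨j, h2⟩
    · rw [h2] at hi₀
      exact hi₀ hi
    · rw [h2] at hi₀
      exact hi₀ (h1 j)
  set k : Fin 4 → E := fun i => g i • h i with hk
  have hksum : ∑ i, k i = 0 := hg
  have hloc' : ∀ w, (∀ i, ⟪k i, w⟫ ≠ 0) → ∃ C, LocAff f w C := by
    intro w hw
    apply hloc
    intro i h0
    apply hw i
    rw [hk]
    simp only
    rw [real_inner_smul_left, h0, mul_zero]
  have hkind : LinearIndependent ℝ (fun j : Fin 3 => k j.castSucc) := by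
    have h1 := hind 3
    have h2 : (fun j : Fin 3 => h ((3 : Fin 4).succAbove j)) = fun j : Fin 3 => h j.castSucc := by
      funext j
      congr 1
      fin_cases j <;> rfl
    rw [h2] at h1
    have h3 := h1.units_smul (fun j : Fin 3 => Units.mk0 (g j.castSucc) (hg0 _))
    exact h3
  -- the coordinate map
  set Φ : E →ₗ[ℝ] (Fin 3 → ℝ) :=
    { toFun := fun w i => ⟪k i.castSucc, w⟫
      map_add' := fun x y => by funext i; exact inner_add_right _ _ _
      map_smul' := fun c x => by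
        funext i
        simp only [RingHom.id_apply, Pi.smul_apply, smul_eq_mul]
        exact real_inner_smul_right _ _ _ } with hΦ
  have hinj : Function.Injective Φ := by
    rw [← LinearMap.ker_eq_bot, LinearMap.ker_eq_bot']
    intro w hw
    have hb : ∀ i : Fin 3, ⟪k i.castSucc, w⟫ = 0 := fun i => congrFun hw i
    have hspan : w ∈ Submodule.span ℝ (Set.range fun j : Fin 3 => k j.castSucc) := by
      rw [hkind.span_eq_top_of_card_eq_finrank' (by rw [h3, Fintype.card_fin])]
      exact Submodule.mem_top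
    rw [Submodule.mem_span_range_iff_exists_fun] at hspan
    obtain ⟨c, hc⟩ := hspan
    have h4 : ⟪w, w⟫ = 0 := by
      nth_rewrite 1 [← hc]
      rw [sum_inner]
      apply Finset.sum_eq_zero
      intro i _
      rw [real_inner_smul_left, hb, mul_zero]
    exact inner_self_eq_zero.1 h4
  have hsurj : Function.Surjective Φ :=
    (LinearMap.injective_iff_surjective_of_finrank_eq_finrank (by simp [h3])).1 hinj
  choose q hq using fun j : Fin 3 => hsurj (Pi.single j 1)
  set p : Fin 4 → E := fun i => if hi : (i : ℕ) < 3 then q ⟨i, hi⟩ else 0 with hp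
  have hpq : ∀ j : Fin 3, p j.castSucc = q j := by
    intro j
    rw [hp]
    simp
  have hp3 : p 3 = 0 := by
    rw [hp]
    simp
  have hkq : ∀ i j : Fin 3, ⟪k i.castSucc, q j⟫ = if i = j then 1 else 0 := by
    intro i j
    have := congrFun (hq j) i
    rw [Pi.single_apply] at this
    exact this
  -- coordinates of a combination
  have hcomb : ∀ c : Fin 4 → ℝ, ∑ i, c i = 0 → ∀ i, ⟪k i, ∑ j, c j • p j⟫ = c i := by
    intro c hc
    have e1 : ∑ j, c j • p j = ∑ j : Fin 3, c j.castSucc • q j := by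
      rw [Fin.sum_univ_castSucc]
      have : p (Fin.last 3) = 0 := hp3
      rw [this, smul_zero, add_zero]
      apply Finset.sum_congr rfl
      intro j _
      rw [hpq]
    have e2 : ∀ i : Fin 3, ⟪k i.castSucc, ∑ j, c j • p j⟫ = c i.castSucc := by
      intro i
      rw [e1, inner_sum, Finset.sum_eq_single i]
      · rw [real_inner_smul_right, hkq, if_pos rfl, mul_one]
      · intro j _ hj
        rw [real_inner_smul_right, hkq, if_neg hj.symm, mul_zero]
      · intro hi
        exact absurd (Finset.mem_univ i) hi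
    intro i
    rcases Fin.eq_castSucc_or_eq_last i with ⟨j, hj⟩ | hi
    · rw [hj]
      exact e2 j
    · rw [hi]
      have e3 : k (Fin.last 3) = - ∑ j : Fin 3, k j.castSucc := by
        rw [Fin.sum_univ_castSucc] at hksum
        rw [eq_neg_iff_add_eq_zero, add_comm]
        exact hksum
      rw [e3, inner_neg_left, sum_inner, Finset.sum_congr rfl (fun j _ => e2 j)]
      rw [Fin.sum_univ_castSucc] at hc
      linarith
  have hrep : ∀ w, w = ∑ j, ⟪k j, w⟫ • p j := by
    intro w
    apply hinj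
    funext i
    have hs : ∑ j, ⟪k j, w⟫ = 0 := by
      rw [← sum_inner, hksum, inner_zero_left]
    exact (hcomb (fun j => ⟪k j, w⟫) hs i.castSucc).symm
  have hdiff : ∀ i j l : Fin 4, ⟪k l, p i - p j⟫ = (if l = i then 1 else 0) - if l = j then 1 else 0 := by
    intro i j l
    have h4 := hcomb (fun m => (if m = i then 1 else 0) - if m = j then 1 else 0) (by
      simp [Finset.sum_sub_distrib]) l
    have h5 : ∑ m, (((if m = i then 1 else 0) - if m = j then 1 else 0 : ℝ)) • p m = p i - p j := by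
      simp [sub_smul, Finset.sum_sub_distrib]
    rw [h5] at h4
    exact h4
  have hf0 : f 0 = 0 := by
    have := hodd 0
    rw [neg_zero] at this
    linarith
  -- the equation of a quadrilateral chamber
  have heq : ∀ i j l m : Fin 4, i ≠ j → i ≠ l → i ≠ m → j ≠ l → j ≠ m → l ≠ m →
      f (p i - p l) + f (p j - p m) = f (p i - p m) + f (p j - p l) := by
    intro i j l m hij hil him hjl hjm hlm
    have hall : ∀ n : Fin 4, n = i ∨ n = j ∨ n = l ∨ n = m := by
      revert i j l m
      decide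
    obtain ⟨C, hC⟩ := chamber_linear hcont hhom k hloc' (fun n => if n = i ∨ n = j then 1 else -1)
      (z := (p i - p l) + (p j - p m)) (by
        intro n
        rw [inner_add_right, hdiff, hdiff]
        rcases hall n with rfl | rfl | rfl | rfl
        · simp [hij, hil, him]
        · simp [hij.symm, hjl, hjm]
        · simp [hil.symm, hjl.symm, hlm]
        · simp [him.symm, hjm.symm, hlm.symm])
    have hr : ∀ s t : Fin 4, (s = i ∨ s = j) → (t = l ∨ t = m) → f (p s - p t) = ⟪C, p s - p t⟫ := by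
      intro s t hs ht
      apply hC
      intro n
      rw [hdiff]
      by_cases h1 : n = s
      · have h2 : n ≠ t := by
          intro h2
          rcases hs with h | h <;> rcases ht with h' | h'
          · exact hil (h.symm.trans (h1.symm.trans (h2.trans h')))
          · exact him (h.symm.trans (h1.symm.trans (h2.trans h')))
          · exact hjl (h.symm.trans (h1.symm.trans (h2.trans h')))
          · exact hjm (h.symm.trans (h1.symm.trans (h2.trans h')))
        subst h1
        rw [if_pos hs, if_pos rfl, if_neg h2]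
        norm_num
      · by_cases h2 : n = t
        · subst h2
          have h3 : ¬ (n = i ∨ n = j) := by
            rcases ht with rfl | rfl
            · rintro (h | h)
              · exact hil h.symm
              · exact hjl h.symm
            · rintro (h | h)
              · exact him h.symm
              · exact hjm h.symm
          rw [if_neg h3, if_neg h1, if_pos rfl]
          norm_num
        · rw [if_neg h1, if_neg h2]
          norm_num
    rw [hr i l (Or.inl rfl) (Or.inl rfl), hr j m (Or.inr rfl) (Or.inr rfl),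
      hr i m (Or.inl rfl) (Or.inr rfl), hr j l (Or.inr rfl) (Or.inl rfl),
      ← inner_add_right, ← inner_add_right]
    congr 1
    abel
  have hneg : ∀ i j, f (p i - p j) = - f (p j - p i) := by
    intro i j
    rw [← hodd, neg_sub]
  have hpair : ∀ i j l : Fin 4, i ≠ j → i ≠ l → j ≠ l → i ≠ 3 → j ≠ 3 → l ≠ 3 →
      f (p i - p j) = f (p i) - f (p j) := by
    intro i j l hij hil hjl hi hj hl
    have e1 := heq i j l 3 hij hil hi hjl hj hl
    have e2 := heq i l j 3 hil hij hi hjl.symm hl hj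
    have e3 := heq i 3 j l hi hij hil hj.symm hl.symm hjl
    rw [hneg l j] at e2
    rw [hneg 3 l, hneg 3 j] at e3
    rw [hp3, sub_zero, sub_zero] at e1 e2
    rw [hp3, sub_zero, sub_zero] at e3
    linarith
  have hpair' : ∀ i j : Fin 4, f (p i - p j) = f (p i) - f (p j) := by
    intro i j
    by_cases hij : i = j
    · rw [hij, sub_self, hf0, sub_self]
    by_cases hi : i = 3
    · rw [hi, hp3, zero_sub, hodd, hf0, zero_sub]
    by_cases hj : j = 3
    · rw [hj, hp3, sub_zero, hf0, sub_zero]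
    obtain ⟨l, h1, h2, h3'⟩ : ∃ l : Fin 4, i ≠ l ∧ j ≠ l ∧ l ≠ 3 := by
      revert i j
      decide
    exact hpair i j l hij h1 h2 hi hj h3'
  refine ⟨∑ i, f (p i) • k i, fun w => ?_⟩
  have hxs : ∑ i, ⟪k i, w⟫ = 0 := by rw [← sum_inner, hksum, inner_zero_left]
  have hgoal : ⟪∑ i, f (p i) • k i, w⟫ = ∑ i, ⟪k i, w⟫ * f (p i) := by
    rw [sum_inner]
    apply Finset.sum_congr rfl
    intro i _
    rw [real_inner_smul_left, mul_comm]
  rw [hgoal]
  by_cases hw0 : ∀ i, ⟪k i, w⟫ = 0
  · have : w = 0 := by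
      rw [hrep w]
      apply Finset.sum_eq_zero
      intro i _
      rw [hw0 i, zero_smul]
    rw [this, hf0]
    symm
    apply Finset.sum_eq_zero
    intro i _
    rw [inner_zero_right, zero_mul]
  push Not at hw0
  have hex : (∃ i, 0 < ⟪k i, w⟫) ∧ ∃ i, ⟪k i, w⟫ ≤ 0 := by
    obtain ⟨i, hi⟩ := hw0
    constructor
    · by_contra hcon
      push Not at hcon
      have := (Finset.sum_eq_zero_iff_of_nonpos (fun j _ => hcon j)).1 hxs i (Finset.mem_univ i)
      exact hi this
    · by_contra hcon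
      push Not at hcon
      have := (Finset.sum_eq_zero_iff_of_nonneg (fun j _ => (hcon j).le)).1 hxs i (Finset.mem_univ i)
      exact hi this
  obtain ⟨⟨iP, hiP⟩, ⟨iN, hiN⟩⟩ := hex
  set nP : ℝ := ((Finset.univ.filter fun i => 0 < ⟪k i, w⟫).card : ℝ) with hnP
  set nN : ℝ := ((Finset.univ.filter fun i => ¬ 0 < ⟪k i, w⟫).card : ℝ) with hnN
  have hnP0 : 0 < nP := by
    rw [hnP]
    exact_mod_cast Finset.card_pos.2 ⟨iP, by simp [hiP]⟩
  have hnN0 : 0 < nN := by
    rw [hnN]
    exact_mod_cast Finset.card_pos.2 ⟨iN, by simp [hiN]⟩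
  set c : Fin 4 → ℝ := fun i => if 0 < ⟪k i, w⟫ then nN else -nP with hc
  have hcsum : ∑ i, c i = 0 := by
    rw [hc, Finset.sum_ite, Finset.sum_const, Finset.sum_const, nsmul_eq_mul, nsmul_eq_mul]
    rw [← hnP, ← hnN]
    ring
  obtain ⟨C, hC⟩ := chamber_linear hcont hhom k hloc' (fun i => if 0 < ⟪k i, w⟫ then 1 else -1)
    (z := ∑ j, c j • p j) (by
      intro i
      rw [hcomb c hcsum i, hc]
      by_cases hi : 0 < ⟪k i, w⟫
      · simp only [if_pos hi]
        linarith
      · simp only [if_neg hi]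
        linarith)
  have hCw : f w = ⟪C, w⟫ := by
    apply hC
    intro i
    by_cases hi : 0 < ⟪k i, w⟫
    · rw [if_pos hi]
      linarith
    · rw [if_neg hi]
      linarith
  have hCr : ∀ i j, 0 < ⟪k i, w⟫ → ¬ 0 < ⟪k j, w⟫ → ⟪C, p i⟫ - ⟪C, p j⟫ = f (p i) - f (p j) := by
    intro i j hi hj
    rw [← hpair' i j, ← inner_sub_right]
    symm
    apply hC
    intro l
    rw [hdiff]
    by_cases h1 : l = i
    · have h2 : l ≠ j := by
        rintro rfl
        rw [h1] at hj
        exact hj hi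
      rw [if_pos h1, if_neg h2, h1, if_pos hi]
      norm_num
    · by_cases h2 : l = j
      · rw [if_neg h1, if_pos h2, h2, if_neg hj]
        norm_num
      · rw [if_neg h1, if_neg h2]
        norm_num
  have hconst : ∀ i, ⟪C, p i⟫ = f (p i) + (⟪C, p iP⟫ - f (p iP)) := by
    intro i
    by_cases hi : 0 < ⟪k i, w⟫
    · have e1 := hCr i iN hi (not_lt.2 hiN)
      have e2 := hCr iP iN hiP (not_lt.2 hiN)
      linarith
    · have e1 := hCr iP i hiP hi
      linarith
  rw [hCw]
  nth_rewrite 1 [hrep w]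
  rw [inner_sum]
  have : ∀ i ∈ (Finset.univ : Finset (Fin 4)), ⟪C, ⟪k i, w⟫ • p i⟫ =
      ⟪k i, w⟫ * f (p i) + ⟪k i, w⟫ * (⟪C, p iP⟫ - f (p iP)) := by
    intro i _
    rw [real_inner_smul_right, hconst i]
    ring
  rw [Finset.sum_congr rfl this, Finset.sum_add_distrib, ← Finset.sum_mul, hxs, zero_mul, add_zero]

/-- a vector orthogonal to three independent vectors of a 3-dimensional space is zero -/
theorem orth3 [FiniteDimensional ℝ E] (h3 : Module.finrank ℝ E = 3) {x y z h : E}
    (hi : LinearIndependent ℝ ![x, y, z]) (hx : ⟪h, x⟫ = 0) (hy : ⟪h, y⟫ = 0) (hz : ⟪h, z⟫ = 0) :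
    h = 0 := by
  have hspan : h ∈ Submodule.span ℝ (Set.range ![x, y, z]) := by
    rw [hi.span_eq_top_of_card_eq_finrank' (by rw [h3, Fintype.card_fin])]
    exact Submodule.mem_top
  rw [Submodule.mem_span_range_iff_exists_fun] at hspan
  obtain ⟨c, hc⟩ := hspan
  have h4 : ⟪h, h⟫ = 0 := by
    nth_rewrite 2 [← hc]
    rw [inner_sum]
    apply Finset.sum_eq_zero
    intro i _
    rw [real_inner_smul_right]
    fin_cases i
    · show c 0 * ⟪h, x⟫ = 0
      rw [hx, mul_zero]
    · show c 1 * ⟪h, y⟫ = 0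
      rw [hy, mul_zero]
    · show c 2 * ⟪h, z⟫ = 0
      rw [hz, mul_zero]
  exact inner_self_eq_zero.1 h4

/-- three of the four vectors `h_ij ≠ 0`, orthogonal to `s_i` and `t_j` -/
theorem gp_triple [FiniteDimensional ℝ E] (h3 : Module.finrank ℝ E = 3) {s s' t t' h1 h2 h3' : E}
    (i1 : LinearIndependent ℝ ![s, s', t]) (i2 : LinearIndependent ℝ ![s, t, t'])
    (n1 : h1 ≠ 0) (n2 : h2 ≠ 0) (n3 : h3' ≠ 0)
    (e1 : ⟪h1, s⟫ = 0) (e1' : ⟪h1, t⟫ = 0) (e2 : ⟪h2, s⟫ = 0) (e2' : ⟪h2, t'⟫ = 0)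
    (e3 : ⟪h3', s'⟫ = 0) (e3' : ⟪h3', t⟫ = 0) {x y z : ℝ} (h : x • h1 + y • h2 + z • h3' = 0) :
    x = 0 ∧ y = 0 ∧ z = 0 := by
  have hz : z = 0 := by
    have h4 := congrArg (fun w => ⟪w, s⟫) h
    simp only [inner_add_left, real_inner_smul_left, e1, e2, mul_zero, zero_add, inner_zero_left] at h4
    rcases mul_eq_zero.1 h4 with h5 | h5
    · exact h5
    · exact absurd (orth3 h3 i1 h5 e3 e3') n3
  have hy : y = 0 := by
    have h4 := congrArg (fun w => ⟪w, t⟫) h
    simp only [inner_add_left, real_inner_smul_left, e1', e3', mul_zero, zero_add, add_zero,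
      inner_zero_left] at h4
    rcases mul_eq_zero.1 h4 with h5 | h5
    · exact h5
    · exact absurd (orth3 h3 i2 e2 h5 e2') n2
  rw [hz, hy, zero_smul, zero_smul, add_zero, add_zero] at h
  exact ⟨(smul_eq_zero.1 h).resolve_right n1, hy, hz⟩

/-- PL4 for the planes spanned by `s_i` and `t_j` -/
theorem pl4' [FiniteDimensional ℝ E] (h3 : Module.finrank ℝ E = 3) {f : E → ℝ}
    (hodd : ∀ w, f (-w) = -f w) (hcont : Continuous f) (hhom : ∀ w, f ((2 : ℝ) • w) = 2 * f w)
    (s t : Fin 2 → E)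
    (hs : ∀ j, LinearIndependent ℝ ![s 0, s 1, t j]) (ht : ∀ i, LinearIndependent ℝ ![s i, t 0, t 1])
    (h : Fin 2 → Fin 2 → E) (h0 : ∀ i j, h i j ≠ 0) (hhs : ∀ i j, ⟪h i j, s i⟫ = 0)
    (hht : ∀ i j, ⟪h i j, t j⟫ = 0)
    (hloc : ∀ w, (∀ i j, ⟪h i j, w⟫ ≠ 0) → ∃ C, LocAff f w C) : ∃ C : E, ∀ w, f w = ⟪C, w⟫ := by
  have hs' : ∀ j, LinearIndependent ℝ ![s 1, s 0, t j] := by
    intro j
    have e : ![s 1, s 0, t j] = ![s 0, s 1, t j] ∘ (Equiv.swap (0 : Fin 3) 1) := by
      funext i
      fin_cases i <;> rfl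
    rw [e]
    exact (hs j).comp (Equiv.swap (0 : Fin 3) 1) (Equiv.injective _)
  have ht' : ∀ i, LinearIndependent ℝ ![s i, t 1, t 0] := by
    intro i
    have e : ![s i, t 1, t 0] = ![s i, t 0, t 1] ∘ (Equiv.swap (1 : Fin 3) 2) := by
      funext j
      fin_cases j <;> rfl
    rw [e]
    exact (ht i).comp (Equiv.swap (1 : Fin 3) 2) (Equiv.injective _)
  apply pl4 h3 hodd hcont hhom ![h 0 0, h 0 1, h 1 0, h 1 1]
  · intro i
    rw [Fintype.linearIndependent_iff]
    intro c hc
    rw [Fin.sum_univ_three] at hc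
    fin_cases i
    · -- missing h 0 0: h 0 1, h 1 0, h 1 1
      have hc' : c 2 • h 1 1 + c 1 • h 1 0 + c 0 • h 0 1 = 0 := by
        rw [← hc]
        show c 2 • h 1 1 + c 1 • h 1 0 + c 0 • h 0 1 = c 0 • h 0 1 + c 1 • h 1 0 + c 2 • h 1 1
        abel
      obtain ⟨a1, a2, a3⟩ := gp_triple h3 (hs' 1) (ht' 1) (h0 1 1) (h0 1 0) (h0 0 1) (hhs 1 1)
        (hht 1 1) (hhs 1 0) (hht 1 0) (hhs 0 1) (hht 0 1) hc'
      intro j
      fin_cases j
      · exact a3
      · exact a2
      · exact a1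
    · have hc' : c 1 • h 1 0 + c 2 • h 1 1 + c 0 • h 0 0 = 0 := by
        rw [← hc]
        show c 1 • h 1 0 + c 2 • h 1 1 + c 0 • h 0 0 = c 0 • h 0 0 + c 1 • h 1 0 + c 2 • h 1 1
        abel
      obtain ⟨a1, a2, a3⟩ := gp_triple h3 (hs' 0) (ht 1) (h0 1 0) (h0 1 1) (h0 0 0) (hhs 1 0)
        (hht 1 0) (hhs 1 1) (hht 1 1) (hhs 0 0) (hht 0 0) hc'
      intro j
      fin_cases j
      · exact a3
      · exact a1
      · exact a2
    · have hc' : c 1 • h 0 1 + c 0 • h 0 0 + c 2 • h 1 1 = 0 := by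
        rw [← hc]
        show c 1 • h 0 1 + c 0 • h 0 0 + c 2 • h 1 1 = c 0 • h 0 0 + c 1 • h 0 1 + c 2 • h 1 1
        abel
      obtain ⟨a1, a2, a3⟩ := gp_triple h3 (hs 1) (ht' 0) (h0 0 1) (h0 0 0) (h0 1 1) (hhs 0 1)
        (hht 0 1) (hhs 0 0) (hht 0 0) (hhs 1 1) (hht 1 1) hc'
      intro j
      fin_cases j
      · exact a2
      · exact a1
      · exact a3
    · have hc' : c 0 • h 0 0 + c 1 • h 0 1 + c 2 • h 1 0 = 0 := by
        rw [← hc]
        rfl
      obtain ⟨a1, a2, a3⟩ := gp_triple h3 (hs 0) (ht 0) (h0 0 0) (h0 0 1) (h0 1 0) (hhs 0 0)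
        (hht 0 0) (hhs 0 1) (hht 0 1) (hhs 1 0) (hht 1 0) hc'
      intro j
      fin_cases j
      · exact a1
      · exact a2
      · exact a3
  · intro w hw
    apply hloc
    intro i j
    fin_cases i <;> fin_cases j
    · exact hw 0
    · exact hw 1
    · exact hw 2
    · exact hw 3

end Pool.FF56
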