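import Mathlib

set_option autoImplicit false

/-!
# FF56/Plane: sign changes around a ridge

Real sequences: `α i = ⟪u i, x⟫`, `β i = ⟪v i, x⟫`, `α' i = ⟪u i, y⟫`, `β' i = ⟪v i, y⟫` for the flags `(u i, v i)` of a
ridge cycle of length `m`, `ε i = 1` if the exit `v i` is a translation facet and `-1` if it is an inversion facet,
`e i` the sign of the `i`-th tile.
-/

open Finset

namespace Pool.FF56

/-- a ridge cycle seen by a generic functional `x` (and an auxiliary `y`) -/
structure Cyc (m : ℕ) (α β α' β' ε e : ℕ → ℝ) : Prop where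
  pos : 0 < m
  hα : ∀ i, α i ≠ 0
  hβ : ∀ i, β i ≠ 0
  det : ∀ i, 0 < α i * β' i - α' i * β i
  nxt : ∀ i, α (i + 1) = - ε i * β i
  nxt' : ∀ i, α' (i + 1) = - ε i * β' i
  sgn : ∀ i, ε i = 1 ∨ ε i = -1
  e0 : e 0 = 1
  es : ∀ i, e (i + 1) = ε i * e i
  pα : ∀ i, α (i + m) = α i
  pβ : ∀ i, β (i + m) = β i
  pα' : ∀ i, α' (i + m) = α' i
  pε : ∀ i, ε (i + m) = ε i

variable {m : ℕ} {α β α' β' ε e : ℕ → ℝ}

theorem Cyc.e_sq (C : Cyc m α β α' β' ε e) (i : ℕ) : e i = 1 ∨ e i = -1 := by
  induction i with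
  | zero => exact Or.inl C.e0
  | succ i ih =>
    rw [C.es i]
    rcases C.sgn i with h | h <;> rcases ih with h' | h' <;> rw [h, h'] <;> norm_num

theorem Cyc.e_add (C : Cyc m α β α' β' ε e) (i : ℕ) : e (i + m) = e m * e i := by
  induction i with
  | zero => rw [Nat.zero_add, C.e0, mul_one]
  | succ i ih =>
    rw [show i + 1 + m = (i + m) + 1 by omega, C.es (i + m), ih, C.pε i, C.es i]
    ring

/-- the arcs of a cycle cross the line orthogonal to `x` -/
theorem Cyc.exists_cross (C : Cyc m α β α' β' ε e) : ∃ i < m, α i * β i < 0 := by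
  by_contra hcon
  push Not at hcon
  have hpos : ∀ i < m, 0 < α i * β i := fun i hi =>
    lt_of_le_of_ne (hcon i hi) (mul_ne_zero (C.hα i) (C.hβ i)).symm
  have hstep : ∀ i < m, α' i / α i < α' (i + 1) / α (i + 1) := by
    intro i hi
    have h1 : α' (i + 1) / α (i + 1) = β' i / β i := by
      rw [C.nxt i, C.nxt' i]
      rcases C.sgn i with h | h <;> rw [h]
      · rw [neg_mul, neg_mul, neg_div_neg_eq, one_mul, one_mul]
      · norm_num
    rw [h1, ← sub_pos]
    have h2 : β' i / β i - α' i / α i = (α i * β' i - α' i * β i) / (α i * β i) := by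
      field_simp [C.hα i, C.hβ i]
    rw [h2]
    exact div_pos (C.det i) (hpos i hi)
  have hmono : ∀ n, n ≤ m → 0 < n → α' 0 / α 0 < α' n / α n := by
    intro n
    induction n with
    | zero => intro _ h; exact absurd h (lt_irrefl _)
    | succ n ih =>
      intro hn _
      rcases Nat.eq_zero_or_pos n with h0 | h0
      · subst h0
        exact hstep 0 (by omega)
      · exact (ih (by omega) h0).trans (hstep n (by omega))
  have h := hmono m le_rfl C.pos
  have e1 := C.pα 0
  have e2 := C.pα' 0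
  rw [Nat.zero_add] at e1 e2
  rw [e1, e2] at h
  exact lt_irrefl _ h

/-- the wedge of the `i`-th tile contains `x` -/
def Wdg (α β e : ℕ → ℝ) (i : ℕ) : Prop := e i * α i < 0 ∧ e i * β i < 0

open Classical in
/-- number of wedges -/
noncomputable def cW (α β e : ℕ → ℝ) (n : ℕ) : ℕ := #{i ∈ range n | Wdg α β e i}

open Classical in
/-- number of crossing arcs -/
noncomputable def cJ (α β : ℕ → ℝ) (n : ℕ) : ℕ := #{i ∈ range n | α i * β i < 0}

open Classical in
/-- sign indicator -/
noncomputable def bb (α e : ℕ → ℝ) (i : ℕ) : ℤ := if 0 < e i * α i then 1 else 0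

theorem cW_succ (α β e : ℕ → ℝ) (n : ℕ) [Decidable (Wdg α β e n)] :
    cW α β e (n + 1) = cW α β e n + if Wdg α β e n then 1 else 0 := by
  classical
  unfold cW
  rw [range_add_one, filter_insert]
  split_ifs with h
  · rw [card_insert_of_notMem (by simp)]
  · rfl

theorem cJ_succ (α β : ℕ → ℝ) (n : ℕ) [Decidable (α n * β n < 0)] :
    cJ α β (n + 1) = cJ α β n + if α n * β n < 0 then 1 else 0 := by
  classical
  unfold cJ
  rw [range_add_one, filter_insert]
  split_ifs with h
  · rw [card_insert_of_notMem (by simp)]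
  · rfl

theorem Cyc.count (C : Cyc m α β α' β' ε e) (n : ℕ) :
    (2 * cW α β e n + cJ α β n : ℤ) = n + bb α e n - bb α e 0 := by
  classical
  induction n with
  | zero => simp [cW, cJ]
  | succ n ih =>
    rw [cW_succ, cJ_succ]
    push_cast
    have key : (2 * (if Wdg α β e n then 1 else 0) + (if α n * β n < 0 then 1 else 0) : ℤ) =
        1 + bb α e (n + 1) - bb α e n := by
      have h1 : e (n + 1) * α (n + 1) = - (e n * β n) := by
        rw [C.es n, C.nxt n]
        rcases C.sgn n with h | h <;> rw [h] <;> ring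
      unfold bb Wdg
      rw [h1]
      rcases C.e_sq n with h | h <;> rw [h] <;>
        rcases lt_or_gt_of_ne (C.hα n) with ha | ha <;>
        rcases lt_or_gt_of_ne (C.hβ n) with hb | hb
      · have := mul_pos_of_neg_of_neg ha hb
        simp [ha, hb, not_lt.2 this.le, not_lt.2 ha.le]
      · have := mul_neg_of_neg_of_pos ha hb
        simp [ha, hb, this, not_lt.2 hb.le, not_lt.2 ha.le]
      · have := mul_neg_of_pos_of_neg ha hb
        simp [ha, hb, this, not_lt.2 ha.le]
      · have := mul_pos ha hb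
        simp [ha, hb, not_lt.2 this.le, not_lt.2 hb.le, not_lt.2 ha.le]
      · have := mul_pos_of_neg_of_neg ha hb
        simp [ha, hb, not_lt.2 this.le, not_lt.2 hb.le, not_lt.2 ha.le]
      · have := mul_neg_of_neg_of_pos ha hb
        simp [ha, hb, this, not_lt.2 hb.le, not_lt.2 ha.le]
      · have := mul_neg_of_pos_of_neg ha hb
        simp [ha, hb, this, not_lt.2 ha.le, not_lt.2 hb.le]
      · have := mul_pos ha hb
        simp [ha, hb, not_lt.2 this.le, not_lt.2 ha.le, not_lt.2 hb.le]
    linarith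

/-- the arcs of a cycle do not all cross the line orthogonal to `x` -/
theorem Cyc.exists_noncross (C : Cyc m α β α' β' ε e) : ∃ i < m, 0 < α i * β i := by
  by_contra hcon
  push Not at hcon
  have hneg : ∀ i < m, α i * β i < 0 := fun i hi =>
    lt_of_le_of_ne (hcon i hi) (mul_ne_zero (C.hα i) (C.hβ i))
  have hstep : ∀ i < m, α' (i + 1) / α (i + 1) < α' i / α i := by
    intro i hi
    have h1 : α' (i + 1) / α (i + 1) = β' i / β i := by
      rw [C.nxt i, C.nxt' i]
      rcases C.sgn i with h | h <;> rw [h]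
      · rw [neg_mul, neg_mul, neg_div_neg_eq, one_mul, one_mul]
      · norm_num
    rw [h1, ← sub_neg]
    have h2 : β' i / β i - α' i / α i = (α i * β' i - α' i * β i) / (α i * β i) := by
      field_simp [C.hα i, C.hβ i]
    rw [h2]
    exact div_neg_of_pos_of_neg (C.det i) (hneg i hi)
  have hmono : ∀ n, n ≤ m → 0 < n → α' n / α n < α' 0 / α 0 := by
    intro n
    induction n with
    | zero => intro _ h; exact absurd h (lt_irrefl _)
    | succ n ih =>
      intro hn _
      rcases Nat.eq_zero_or_pos n with h0 | h0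
      · subst h0
        exact hstep 0 (by omega)
      · exact (hstep n (by omega)).trans (ih (by omega) h0)
  have h := hmono m le_rfl C.pos
  have e1 := C.pα 0
  have e2 := C.pα' 0
  rw [Nat.zero_add] at e1 e2
  rw [e1, e2] at h
  exact lt_irrefl _ h

theorem cJ_pos {n : ℕ} (h : ∃ i < n, α i * β i < 0) : 0 < cJ α β n := by
  classical
  obtain ⟨i, hi, h⟩ := h
  exact card_pos.2 ⟨i, by simp [hi, h]⟩

theorem cJ_lt {n : ℕ} (h : ∃ i < n, 0 < α i * β i) : cJ α β n < n := by
  classical
  obtain ⟨i, hi, h⟩ := h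
  have h1 : cJ α β n < #(range n) := by
    apply card_lt_card
    rw [filter_ssubset]
    exact ⟨i, by simp [hi], not_lt.2 h.le⟩
  rwa [card_range] at h1

theorem bb_cases (α e : ℕ → ℝ) (i : ℕ) : bb α e i = 0 ∨ bb α e i = 1 := by
  unfold bb
  split_ifs
  · exact Or.inr rfl
  · exact Or.inl rfl

theorem bb_eq {i l : ℕ} (h : e l * α l = e i * α i) : bb α e l = bb α e i := by
  unfold bb
  rw [h]

theorem Cyc.bb_neg (C : Cyc m α β α' β' ε e) {i l : ℕ} (h : e l * α l = - (e i * α i)) :
    bb α e l = 1 - bb α e i := by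
  unfold bb
  rw [h]
  have hne : e i * α i ≠ 0 := by
    rcases C.e_sq i with h' | h' <;> rw [h'] <;> simpa using C.hα i
  rcases lt_or_gt_of_ne hne with h1 | h1
  · rw [if_pos (by linarith), if_neg (by linarith)]
    norm_num
  · rw [if_neg (by linarith), if_pos (by linarith)]
    norm_num

theorem cJ_add (hα : ∀ i, α (i + m) = α i) (hβ : ∀ i, β (i + m) = β i) (n : ℕ) :
    cJ α β (n + m) = cJ α β n + cJ α β m := by
  classical
  induction n with
  | zero => simp [cJ]
  | succ n ih =>
    rw [show n + 1 + m = (n + m) + 1 by omega, cJ_succ, cJ_succ, ih, hα, hβ]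
    omega


end Pool.FF56
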